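import Mathlib

namespace Pool.Agent.Results.MP_96963f_co.SharpExponent

open Finset

section Defs
variable {V : Type} [Fintype V]

/-- `f` is weighted threshold: true exactly when the weighted sum reaches the quota. -/
def IsThreshold (f : (V → Bool) → Bool) : Prop :=
  ∃ (w : V → ℝ) (q : ℝ), ∀ x : V → Bool, f x = true ↔ q ≤ ∑ i, w i * (x i).toNat

/-- `f` is `k`-summable: `k` true vectors and `k` false vectors (repetitions allowed) with the
same sum in every coordinate. -/
def KSummable (k : ℕ) (f : (V → Bool) → Bool) : Prop :=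
  ∃ x y : Fin k → (V → Bool), (∀ j, f (x j) = true) ∧ (∀ j, f (y j) = false) ∧
    ∀ i, ∑ j, (x j i).toNat = ∑ j, (y j i).toNat

/-- `f` is `m`-asummable: not `k`-summable for any `k` in `1, ..., m`. -/
def Asummable (m : ℕ) (f : (V → Bool) → Bool) : Prop :=
  ∀ k, 1 ≤ k → k ≤ m → ¬ KSummable k f

end Defs

/-- every `m`-asummable switching function on `n` variables is weighted threshold -/
def Certifies (n m : ℕ) : Prop :=
  ∀ f : (Fin n → Bool) → Bool, Monotone f → Asummable m f → IsThreshold f

/-- the least `m` such that every `m`-asummable switching function on `n` variables is weighted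
threshold -/
noncomputable def M (n : ℕ) : ℕ := sInf {m | Certifies n m}

section Basic
variable {V : Type} [Fintype V]

lemma not_ksummable_of_threshold {f : (V → Bool) → Bool} (h : IsThreshold f) {k : ℕ}
    (hk : 1 ≤ k) : ¬ KSummable k f := by
  rintro ⟨x, y, hx, hy, hs⟩
  obtain ⟨w, q, hw⟩ := h
  have h1 : ∀ j, q ≤ ∑ i, w i * ((x j i).toNat : ℝ) := fun j => (hw _).1 (hx j)
  have h2 : ∀ j, ∑ i, w i * ((y j i).toNat : ℝ) < q := by
    intro j
    by_contra hc
    push Not at hc
    have := (hw _).2 hc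
    rw [hy j] at this
    exact absurd this (by decide)
  have h3 : ∑ j, ∑ i, w i * ((x j i).toNat : ℝ) = ∑ j, ∑ i, w i * ((y j i).toNat : ℝ) := by
    rw [Finset.sum_comm, Finset.sum_comm (γ := Fin k)]
    apply Finset.sum_congr rfl
    intro i _
    rw [← Finset.mul_sum, ← Finset.mul_sum]
    congr 1
    exact_mod_cast hs i
  have h4 : ∑ j : Fin k, ∑ i, w i * ((y j i).toNat : ℝ) < ∑ j : Fin k, q := by
    apply Finset.sum_lt_sum_of_nonempty
    · exact ⟨⟨0, by omega⟩, Finset.mem_univ _⟩
    · intro j _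
      exact h2 j
  have h5 : ∑ j : Fin k, q ≤ ∑ j, ∑ i, w i * ((x j i).toNat : ℝ) :=
    Finset.sum_le_sum (fun j _ => h1 j)
  linarith

omit [Fintype V] in
lemma ksummable_of_multiset {f : (V → Bool) → Bool} {X Y : Multiset (V → Bool)}
    (hX : ∀ x ∈ X, f x = true) (hY : ∀ y ∈ Y, f y = false) (hc : X.card = Y.card)
    (hs : ∀ i, (X.map (fun x => (x i).toNat)).sum = (Y.map (fun y => (y i).toNat)).sum) :
    KSummable X.card f := by
  induction X using Quotient.inductionOn with
  | h lx =>
    induction Y using Quotient.inductionOn with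
    | h ly =>
      simp only [Multiset.quot_mk_to_coe, Multiset.coe_card] at *
      simp only [Multiset.mem_coe, Multiset.map_coe, Multiset.sum_coe] at hX hY hs
      refine ⟨fun j => lx.get j, fun j => ly.get (Fin.cast hc j), fun j => hX _ (List.get_mem _ _),
        fun j => hY _ (List.get_mem _ _), ?_⟩
      intro i
      have h1 : ∑ j : Fin lx.length, ((lx.get j) i).toNat = (lx.map (fun x => (x i).toNat)).sum := by
        rw [← Fin.sum_univ_fun_getElem]
        simp
      have h2 : ∑ j : Fin ly.length, ((ly.get j) i).toNat = (ly.map (fun x => (x i).toNat)).sum := by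
        rw [← Fin.sum_univ_fun_getElem]
        simp
      rw [h1, hs i, ← h2]
      exact (Equiv.sum_comp (finCongr hc) (fun j => ((ly.get j) i).toNat)).symm

end Basic


section Basic2
variable {V : Type}

lemma ksummable_of_counts {f : (V → Bool) → Bool} {I J : Type} [Fintype I] [Fintype J]
    (P : I → ℕ) (Q : J → ℕ) (X : I → V → Bool) (Y : J → V → Bool)
    (hX : ∀ i, P i ≠ 0 → f (X i) = true) (hY : ∀ j, Q j ≠ 0 → f (Y j) = false)
    (hc : ∑ i, P i = ∑ j, Q j)
    (hs : ∀ v, ∑ i, P i * (X i v).toNat = ∑ j, Q j * (Y j v).toNat) :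
    KSummable (∑ i, P i) f := by
  have key := @ksummable_of_multiset V f (∑ i, Multiset.replicate (P i) (X i))
    (∑ j, Multiset.replicate (Q j) (Y j)) ?_ ?_ ?_ ?_
  · have e : (∑ i, Multiset.replicate (P i) (X i)).card = ∑ i, P i := by
      simp
    rwa [e] at key
  · intro x hx
    rw [Multiset.mem_sum] at hx
    obtain ⟨i, _, hi⟩ := hx
    obtain ⟨h1, h2⟩ := Multiset.mem_replicate.1 hi
    rw [h2]
    exact hX i h1
  · intro x hx
    rw [Multiset.mem_sum] at hx
    obtain ⟨i, _, hi⟩ := hx
    obtain ⟨h1, h2⟩ := Multiset.mem_replicate.1 hi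
    rw [h2]
    exact hY i h1
  · simpa using hc
  · intro v
    have e1 : ∀ (I : Type) [Fintype I] (P : I → ℕ) (X : I → V → Bool),
        (Multiset.map (fun x : V → Bool => (x v).toNat) (∑ i, Multiset.replicate (P i) (X i))).sum
          = ∑ i, P i * (X i v).toNat := by
      intro I _ P X
      rw [← Multiset.coe_mapAddMonoidHom, map_sum, Multiset.sum_sum]
      simp
    rw [e1, e1]
    exact hs v

def AffLike (F : (V → Bool) → ℝ) : Prop :=
  ∀ (k : ℕ) (x y : Fin k → V → Bool), (∀ v, ∑ j, (x j v).toNat = ∑ j, (y j v).toNat) →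
    ∑ j, F (x j) = ∑ j, F (y j)

lemma AffLike.coord (v : V) : AffLike (fun x => ((x v).toNat : ℝ)) := by
  intro k x y h
  have := h v
  beta_reduce
  exact_mod_cast this

lemma AffLike.const (c : ℝ) : AffLike (fun _ : V → Bool => c) := by
  intro k x y h
  rfl

lemma AffLike.add {F G : (V → Bool) → ℝ} (hF : AffLike F) (hG : AffLike G) :
    AffLike (fun x => F x + G x) := by
  intro k x y h
  rw [Finset.sum_add_distrib, Finset.sum_add_distrib, hF k x y h, hG k x y h]

lemma AffLike.sub {F G : (V → Bool) → ℝ} (hF : AffLike F) (hG : AffLike G) :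
    AffLike (fun x => F x - G x) := by
  intro k x y h
  rw [Finset.sum_sub_distrib, Finset.sum_sub_distrib, hF k x y h, hG k x y h]

lemma AffLike.mul {F : (V → Bool) → ℝ} (c : ℝ) (hF : AffLike F) :
    AffLike (fun x => c * F x) := by
  intro k x y h
  rw [← Finset.mul_sum, ← Finset.mul_sum, hF k x y h]

lemma AffLike.sum {I : Type} (s : Finset I) {F : I → (V → Bool) → ℝ} (hF : ∀ i, AffLike (F i)) :
    AffLike (fun x => ∑ i ∈ s, F i x) := by
  intro k x y h
  rw [Finset.sum_comm, Finset.sum_comm (γ := Fin k)]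
  exact Finset.sum_congr rfl (fun i _ => hF i k x y h)

lemma AffLike.ite {F G : (V → Bool) → ℝ} (p : Prop) [Decidable p] (hF : AffLike F)
    (hG : AffLike G) : AffLike (fun x => if p then F x else G x) := by
  intro k x y h
  split_ifs
  · exact hF k x y h
  · exact hG k x y h

end Basic2


section Closed

noncomputable abbrev rv (b : Bool) : ℝ := (b.toNat : ℝ)

lemma exists_generic {I X : Type} [Fintype I] [Fintype X] (v : X → I → ℝ) :
    ∃ θ : I → ℝ, ∀ x, v x ≠ 0 → ∑ e, θ e * v x e ≠ 0 := by
  classical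
  let F : X → (I → ℝ) →ₗ[ℝ] ℝ := fun x => ∑ e, (v x e) • (LinearMap.proj e)
  have hF : ∀ x θ, F x θ = ∑ e, θ e * v x e := by
    intro x θ
    simp only [F, LinearMap.sum_apply, LinearMap.smul_apply, LinearMap.proj_apply, smul_eq_mul]
    exact Finset.sum_congr rfl (fun e _ => mul_comm _ _)
  let s : Finset (Subspace ℝ (I → ℝ)) :=
    (Finset.univ.filter (fun x : X => v x ≠ 0)).image (fun x => LinearMap.ker (F x))
  have hs : ⊤ ∉ s := by
    intro h
    obtain ⟨x, hx, h2⟩ := Finset.mem_image.1 h
    have hx' := (Finset.mem_filter.1 hx).2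
    have h3 : v x ∈ LinearMap.ker (F x) := by rw [h2]; trivial
    rw [LinearMap.mem_ker, hF] at h3
    apply hx'
    funext e
    have h4 : ∀ e ∈ Finset.univ, v x e * v x e = 0 := by
      rw [← Finset.sum_eq_zero_iff_of_nonneg]
      · exact h3
      · intro e _
        exact mul_self_nonneg _
    have := h4 e (Finset.mem_univ _)
    simpa using this
  have h5 := Subspace.biUnion_ne_univ_of_top_notMem hs
  obtain ⟨θ, hθ⟩ := (Set.ne_univ_iff_exists_notMem _).1 h5
  refine ⟨θ, fun x hx h0 => hθ ?_⟩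
  simp only [Set.mem_iUnion]
  refine ⟨LinearMap.ker (F x), Finset.mem_image.2 ⟨x, Finset.mem_filter.2 ⟨Finset.mem_univ _, hx⟩,
    rfl⟩, ?_⟩
  show F x θ = 0
  rw [hF, h0]

lemma sum_eq_forall_eq {k : ℕ} {a b : Fin k → ℝ} {c : ℝ} (h : ∑ j, a j = ∑ j, b j)
    (ha : ∀ j, c ≤ a j) (hb : ∀ j, b j ≤ c) : (∀ j, a j = c) ∧ (∀ j, b j = c) := by
  have h1 : ∑ j : Fin k, c ≤ ∑ j, a j := Finset.sum_le_sum (fun j _ => ha j)
  have h2 : ∑ j, b j ≤ ∑ j : Fin k, c := Finset.sum_le_sum (fun j _ => hb j)
  constructor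
  · intro j
    have := (Finset.sum_eq_sum_iff_of_le (fun j _ => ha j)).1 (le_antisymm h1 (by linarith))
    exact (this j (Finset.mem_univ _)).symm
  · intro j
    have := (Finset.sum_eq_sum_iff_of_le (fun j _ => hb j)).1 (le_antisymm h2 (by linarith))
    exact this j (Finset.mem_univ _)


def wwt {V : Type} [Fintype V] (w : V → ℕ) (x : V → Bool) : ℕ := ∑ v, w v * (x v).toNat

lemma wwt_lt {V : Type} [Fintype V] (w : V → ℕ) (hw : ∀ v, 1 ≤ w v) {x y : V → Bool} (h : x ≤ y)
    (hne : x ≠ y) : wwt w x < wwt w y := by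
  unfold wwt
  have h1 : ∀ i, (x i).toNat ≤ (y i).toNat := by
    intro i
    have := h i
    cases hx : x i <;> cases hy : y i
    · simp
    · simp
    · rw [hx, hy] at this
      exact absurd (show (true : Bool) ≤ false from this) (by decide)
    · simp
  have : ∃ i, x i ≠ y i := by
    by_contra hc
    push Not at hc
    exact hne (funext hc)
  obtain ⟨i, hi⟩ := this
  apply Finset.sum_lt_sum (fun i _ => Nat.mul_le_mul_left _ (h1 i)) ⟨i, Finset.mem_univ _, ?_⟩
  have h2 := h i
  have h3 := hw i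
  cases hx : x i <;> cases hy : y i
  · exact absurd (hx.trans hy.symm) hi
  · simp
    omega
  · rw [hx, hy] at h2
    exact absurd (show (true : Bool) ≤ false from h2) (by decide)
  · exact absurd (hx.trans hy.symm) hi

noncomputable def aug {V : Type} (x : V → Bool) : Option V → ℝ
  | none => 1
  | some v => rv (x v)

lemma affLike_lin {V : Type} (f : (Option V → ℝ) →ₗ[ℝ] ℝ) : AffLike (fun x => f (aug x)) := by
  intro k x y h
  beta_reduce
  rw [← map_sum, ← map_sum]
  congr 1
  funext o
  rw [Finset.sum_apply, Finset.sum_apply]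
  rcases o with _ | v
  · simp [aug]
  · simp only [aug, rv]
    have := h v
    exact_mod_cast this

lemma closed_gadget {T V : Type} [Fintype T] [Fintype V] (ρ : V → T → Bool) (w : V → ℕ)
    (hw : ∀ v, 1 ≤ w v) (q : ℕ) (hq : ∀ t, ∑ v, w v * (ρ v t).toNat = q)
    (hinj : ∀ t t', (∀ v, ρ v t = ρ v t') → t = t')
    (hcl : ∀ lam : T → ℝ, ∑ t, lam t = 1 →
      (∀ v, ∑ t, lam t * rv (ρ v t) = 0 ∨ ∑ t, lam t * rv (ρ v t) = 1) →
      ∃ t0, ∀ v, ∑ t, lam t * rv (ρ v t) = rv (ρ v t0))
    (s : T → Bool) :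
    ∃ f : (V → Bool) → Bool, Monotone f ∧
    (∀ k, 1 ≤ k → KSummable k f → ∃ c : T → ℤ, c ≠ 0 ∧ (∀ v, ∑ t, c t * (ρ v t).toNat = 0) ∧
      ∑ t, |c t| = 2 * k) ∧
    (∀ c : T → ℤ, c ≠ 0 → (∀ t, 0 < c t → s t = true) → (∀ t, c t < 0 → s t = false) →
      ∑ t, c t = 0 → (∀ v, ∑ t, c t * (ρ v t).toNat = 0) → ∃ k, 1 ≤ k ∧ KSummable k f) := by
  classical
  let vec : T → V → Bool := fun t v => ρ v t
  have hvinj : Function.Injective vec := fun t t' h => hinj t t' (fun v => congrFun h v)
  have hsep : ∀ x : V → Bool, ∃ f : (Option V → ℝ) →ₗ[ℝ] ℝ, (∀ t, f (aug (vec t)) = 0) ∧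
      ((∀ t, x ≠ vec t) → f (aug x) ≠ 0) := by
    intro x
    by_cases hx : ∀ t, x ≠ vec t
    · have hnot : aug x ∉ Submodule.span ℝ (Set.range (fun t => aug (vec t))) := by
        intro hmem
        obtain ⟨lam, hlam⟩ := (Submodule.mem_span_range_iff_exists_fun ℝ).1 hmem
        have h1 : ∑ t, lam t = 1 := by
          have := congrFun hlam none
          rw [Finset.sum_apply] at this
          simpa [aug] using this
        have h2 : ∀ v, ∑ t, lam t * rv (ρ v t) = rv (x v) := by
          intro v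
          have := congrFun hlam (some v)
          rw [Finset.sum_apply] at this
          simpa [aug, vec] using this
        obtain ⟨t0, ht0⟩ := hcl lam h1 (by
          intro v
          rw [h2]
          cases x v <;> simp [rv])
        apply hx t0
        funext v
        have := (h2 v).symm.trans (ht0 v)
        simp only [vec]
        unfold rv at this
        have h3 : (x v).toNat = (ρ v t0).toNat := by exact_mod_cast this
        cases h4 : x v <;> cases h5 : ρ v t0 <;> simp_all
      obtain ⟨f, hf1, hf2⟩ := Submodule.exists_le_ker_of_notMem hnot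
      refine ⟨f, fun t => ?_, fun _ => hf1⟩
      have : aug (vec t) ∈ LinearMap.ker f := hf2 (Submodule.subset_span ⟨t, rfl⟩)
      simpa using this
    · exact ⟨0, fun t => rfl, fun h => absurd h hx⟩
  choose F hF1 hF2 using hsep
  obtain ⟨θ, hθ⟩ := exists_generic (fun (x : V → Bool) (x' : V → Bool) => F x' (aug x))
  let ell : (V → Bool) → ℝ := fun x => ∑ x', θ x' * F x' (aug x)
  have hell0 : ∀ t, ell (vec t) = 0 := by
    intro t
    apply Finset.sum_eq_zero
    intro x' _
    rw [hF1, mul_zero]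
  have hell1 : ∀ x, ell x = 0 → ∃ t, x = vec t := by
    intro x hx
    by_contra hc
    push Not at hc
    apply hθ x _ hx
    intro h0
    exact hF2 x hc (congrFun h0 x)
  have hellA : AffLike ell := AffLike.sum _ (fun x' => AffLike.mul _ (affLike_lin (F x')))
  let f : (V → Bool) → Bool := fun x => decide (q < wwt w x ∨ (wwt w x = q ∧
    (0 < ell x ∨ ∃ t, s t = true ∧ x = vec t)))
  have hft : ∀ t, f (vec t) = s t := by
    intro t
    cases hs : s t
    · simp only [f]
      rw [decide_eq_false_iff_not]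
      rintro (h | ⟨_, h | ⟨t', h1, h2⟩⟩)
      · have : wwt w (vec t) = q := hq t
        omega
      · rw [hell0] at h
        exact lt_irrefl _ h
      · rw [hvinj h2, h1] at hs
        exact absurd hs (by decide)
    · simp only [f]
      rw [decide_eq_true_iff]
      exact Or.inr ⟨hq t, Or.inr ⟨t, hs, rfl⟩⟩
  refine ⟨f, ?_, ?_, ?_⟩
  · intro x y hxy
    by_cases hne : x = y
    · rw [hne]
    · have := wwt_lt w hw hxy hne
      rw [Bool.le_iff_imp]
      intro h
      simp only [f] at h ⊢
      rw [decide_eq_true_iff] at h ⊢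
      left
      rcases h with h | h <;> omega
  · rintro k hk ⟨x, y, hx, hy, hs⟩
    simp only [f] at hx hy
    simp only [decide_eq_true_iff, decide_eq_false_iff_not, not_or, not_and, not_lt] at hx hy
    have hwA : AffLike (fun x : V → Bool => (wwt w x : ℝ)) := by
      have h1 := AffLike.sum Finset.univ (fun v : V => AffLike.mul (w v : ℝ) (AffLike.coord v))
      intro k x y h
      have := h1 k x y h
      simp only [wwt, Nat.cast_sum, Nat.cast_mul]
      exact this
    obtain ⟨hwx, hwy⟩ := sum_eq_forall_eq (c := (q : ℕ)) (hwA k x y hs)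
      (by
        intro j
        have := hx j
        have h2 : q ≤ wwt w (x j) := by rcases this with h | h <;> omega
        exact Nat.cast_le.2 h2)
      (by
        intro j
        have := (hy j).1
        exact Nat.cast_le.2 this)
    have hwx' : ∀ j, wwt w (x j) = q := fun j => Nat.cast_injective (R := ℝ) (hwx j)
    have hwy' : ∀ j, wwt w (y j) = q := fun j => Nat.cast_injective (R := ℝ) (hwy j)
    have hx2 : ∀ j, 0 < ell (x j) ∨ ∃ t, s t = true ∧ x j = vec t := by
      intro j
      rcases hx j with h | h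
      · have := hwx' j
        omega
      · exact h.2
    have hy2 := fun j => (hy j).2 (hwy' j)
    obtain ⟨hlx, hly⟩ := sum_eq_forall_eq (c := 0) (hellA k x y hs)
      (by
        intro j
        rcases hx2 j with h | ⟨t, _, h⟩
        · exact h.le
        · rw [h, hell0])
      (fun j => (hy2 j).1)
    have hx3 : ∀ j, ∃ t, s t = true ∧ x j = vec t := by
      intro j
      rcases hx2 j with h | h
      · have := hlx j
        linarith
      · exact h
    have hy3 : ∀ j, ∃ t, s t = false ∧ y j = vec t := by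
      intro j
      obtain ⟨t, ht⟩ := hell1 (y j) (hly j)
      refine ⟨t, ?_, ht⟩
      cases hs : s t
      · rfl
      · exact absurd ⟨t, hs, ht⟩ (hy2 j).2
    choose tx htx1 htx2 using hx3
    choose ty hty1 hty2 using hy3
    let P : T → ℕ := fun t => ∑ j, if tx j = t then 1 else 0
    let Q : T → ℕ := fun t => ∑ j, if ty j = t then 1 else 0
    have hP : ∀ t, s t = false → P t = 0 := by
      intro t ht
      apply Finset.sum_eq_zero
      intro j _
      rw [if_neg]
      rintro rfl
      rw [htx1 j] at ht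
      exact absurd ht (by decide)
    have hQ : ∀ t, s t = true → Q t = 0 := by
      intro t ht
      apply Finset.sum_eq_zero
      intro j _
      rw [if_neg]
      rintro rfl
      rw [hty1 j] at ht
      exact absurd ht (by decide)
    have hPs : ∀ g : T → ℕ, ∑ t, P t * g t = ∑ j, g (tx j) := by
      intro g
      simp only [P, Finset.sum_mul]
      rw [Finset.sum_comm]
      apply Finset.sum_congr rfl
      intro j _
      rw [Finset.sum_eq_single (tx j)]
      · simp
      · intro t _ ht
        rw [if_neg (Ne.symm ht), zero_mul]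
      · simp
    have hQs : ∀ g : T → ℕ, ∑ t, Q t * g t = ∑ j, g (ty j) := by
      intro g
      simp only [Q, Finset.sum_mul]
      rw [Finset.sum_comm]
      apply Finset.sum_congr rfl
      intro j _
      rw [Finset.sum_eq_single (ty j)]
      · simp
      · intro t _ ht
        rw [if_neg (Ne.symm ht), zero_mul]
      · simp
    have hP1 : ∑ t, P t = k := by
      have := hPs (fun _ => 1)
      simpa using this
    have hQ1 : ∑ t, Q t = k := by
      have := hQs (fun _ => 1)
      simpa using this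
    have habs : ∀ t, |(P t : ℤ) - Q t| = P t + Q t := by
      intro t
      cases ht : s t
      · rw [hP t ht]
        simp
      · rw [hQ t ht]
        simp
    refine ⟨fun t => (P t : ℤ) - Q t, ?_, ?_, ?_⟩
    · intro h0
      have h1 : ∀ t, (P t : ℤ) + Q t = 0 := by
        intro t
        rw [← habs t]
        have := congrFun h0 t
        simp only [Pi.zero_apply] at this
        rw [this, abs_zero]
      have h2 : ∑ t, P t = 0 := by
        apply Finset.sum_eq_zero
        intro t _
        have := h1 t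
        omega
      omega
    · intro v
      simp only [sub_mul, Finset.sum_sub_distrib]
      rw [sub_eq_zero]
      have e1 := hPs (fun t => (ρ v t).toNat)
      have e2 := hQs (fun t => (ρ v t).toNat)
      have e3 := hs v
      have e4 : ∀ j, (x j v).toNat = (ρ v (tx j)).toNat := fun j => by rw [htx2 j]
      have e5 : ∀ j, (y j v).toNat = (ρ v (ty j)).toNat := fun j => by rw [hty2 j]
      rw [Finset.sum_congr rfl (fun j _ => e4 j), Finset.sum_congr rfl (fun j _ => e5 j), ← e1,
        ← e2] at e3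
      exact_mod_cast e3
    · rw [Finset.sum_congr rfl (fun t _ => habs t), Finset.sum_add_distrib]
      have e1 : ∑ t, (P t : ℤ) = k := by exact_mod_cast hP1
      have e2 : ∑ t, (Q t : ℤ) = k := by exact_mod_cast hQ1
      rw [e1, e2]
      ring
  · intro c hc hpos hneg hsum hrel
    have hcnt : ∀ g : T → ℕ, (∑ t, c t * (g t : ℤ)) = ((∑ t, (c t).toNat * g t : ℕ) : ℤ)
        - ((∑ t, (- c t).toNat * g t : ℕ) : ℤ) := by
      intro g
      push_cast
      rw [← Finset.sum_sub_distrib]
      apply Finset.sum_congr rfl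
      intro t _
      rcases le_or_gt 0 (c t) with h | h
      · have h1 : ((- c t).toNat : ℤ) = 0 := by omega
        have h2 : ((c t).toNat : ℤ) = c t := by omega
        rw [h1, h2]
        ring
      · have h1 : ((- c t).toNat : ℤ) = - c t := by omega
        have h2 : ((c t).toNat : ℤ) = 0 := by omega
        rw [h1, h2]
        ring
    have hPQ : ∑ t, (c t).toNat = ∑ t, (- c t).toNat := by
      have := hcnt (fun _ => 1)
      simp only [Nat.cast_one, mul_one] at this
      rw [hsum] at this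
      have h2 := sub_eq_zero.1 this.symm
      exact_mod_cast h2
    refine ⟨∑ t, (c t).toNat, ?_, ?_⟩
    · by_contra h
      apply hc
      have h1 : ∑ t, (c t).toNat = 0 := by omega
      have h2 : ∑ t, (- c t).toNat = 0 := by omega
      funext t
      have h3 := (Finset.sum_eq_zero_iff.1 h1) t (Finset.mem_univ _)
      have h4 := (Finset.sum_eq_zero_iff.1 h2) t (Finset.mem_univ _)
      simp only [Pi.zero_apply]
      omega
    · apply ksummable_of_counts (fun t => (c t).toNat) (fun t => (- c t).toNat) vec vec ?_ ?_ hPQ ?_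
      · intro t ht
        rw [hft]
        apply hpos
        omega
      · intro t ht
        rw [hft]
        apply hneg
        omega
      · intro v
        have := hcnt (fun t => (ρ v t).toNat)
        rw [hrel v] at this
        have h2 := sub_eq_zero.1 this.symm
        exact_mod_cast h2

end Closed

section Pad

lemma pad {V : Type} [Fintype V] (f : (V → Bool) → Bool) (hf : Monotone f) {n : ℕ}
    (hn : Fintype.card V ≤ n) : ∃ F : (Fin n → Bool) → Bool, Monotone F ∧
    ∀ k, KSummable k F ↔ KSummable k f := by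
  classical
  obtain ⟨ι⟩ : Nonempty (V ↪ Fin n) :=
    Function.Embedding.nonempty_of_card_le (by simpa using hn)
  refine ⟨fun x => f (fun v => x (ι v)), ?_, ?_⟩
  · intro x y hxy
    exact hf (fun v => hxy (ι v))
  · intro k
    constructor
    · rintro ⟨x, y, hx, hy, hs⟩
      exact ⟨fun j v => x j (ι v), fun j v => y j (ι v), hx, hy, fun v => hs (ι v)⟩
    · rintro ⟨x, y, hx, hy, hs⟩
      refine ⟨fun j => Function.extend ι (x j) (fun _ => false),
        fun j => Function.extend ι (y j) (fun _ => false), ?_, ?_, ?_⟩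
      · intro j
        beta_reduce
        have : (fun v => Function.extend ι (x j) (fun _ => false) (ι v)) = x j := by
          funext v
          exact ι.injective.extend_apply _ _ _
        rw [this]
        exact hx j
      · intro j
        beta_reduce
        have : (fun v => Function.extend ι (y j) (fun _ => false) (ι v)) = y j := by
          funext v
          exact ι.injective.extend_apply _ _ _
        rw [this]
        exact hy j
      · intro i
        by_cases hi : ∃ v, ι v = i
        · obtain ⟨v, rfl⟩ := hi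
          simp only [ι.injective.extend_apply]
          exact hs v
        · simp only [Function.extend_apply' _ _ _ hi]

end Pad


section Walsh
variable {m : ℕ}

/-- the sign of the element i against b -/
def sg (i : Fin m) (b : Finset (Fin m)) : ℝ := if i ∈ b then -1 else 1

def chi (a b : Finset (Fin m)) : ℝ := ∏ i ∈ a, sg i b

lemma sg_sq (i : Fin m) (b : Finset (Fin m)) : sg i b * sg i b = 1 := by
  unfold sg; split_ifs <;> norm_num

lemma sg_cases (i : Fin m) (b : Finset (Fin m)) : sg i b = 1 ∨ sg i b = -1 := by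
  unfold sg; split_ifs <;> simp

lemma chi_cases (a b : Finset (Fin m)) : chi a b = 1 ∨ chi a b = -1 := by
  unfold chi
  induction a using Finset.induction_on with
  | empty => simp
  | insert i s hi ih =>
    rw [Finset.prod_insert hi]
    rcases sg_cases i b with h | h <;> rcases ih with h' | h' <;> rw [h, h'] <;> simp

lemma chi_empty (b : Finset (Fin m)) : chi ∅ b = 1 := by simp [chi]

lemma chi_eq_univ (a b : Finset (Fin m)) : chi a b = ∏ i, if i ∈ a then sg i b else 1 := by
  unfold chi
  rw [Finset.prod_ite_mem, Finset.univ_inter]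

lemma chi_symmDiff (a b c : Finset (Fin m)) : chi (symmDiff a b) c = chi a c * chi b c := by
  rw [chi_eq_univ, chi_eq_univ, chi_eq_univ, ← Finset.prod_mul_distrib]
  apply Finset.prod_congr rfl
  intro i _
  by_cases h1 : i ∈ a <;> by_cases h2 : i ∈ b <;> simp [Finset.mem_symmDiff, h1, h2, sg_sq]

/-- Walsh inversion -/
lemma chi_orth (b c : Finset (Fin m)) : ∑ a, chi a b * chi a c = if b = c then 2 ^ m else 0 := by
  have h1 : ∑ a, chi a b * chi a c = ∏ i : Fin m, (1 + sg i b * sg i c) := by
    rw [Finset.prod_one_add]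
    rw [Finset.powerset_univ]
    apply Finset.sum_congr rfl
    intro a _
    unfold chi
    rw [Finset.prod_mul_distrib]
  rw [h1]
  split_ifs with h
  · subst h
    simp only [sg_sq]
    simp
    norm_num
  · have : ∃ i, ¬ (i ∈ b ↔ i ∈ c) := by
      by_contra hc
      push Not at hc
      exact h (Finset.ext hc)
    obtain ⟨i, hi⟩ := this
    apply Finset.prod_eq_zero (Finset.mem_univ i)
    unfold sg
    by_cases h1 : i ∈ b <;> by_cases h2 : i ∈ c <;> simp_all

def hat (c : Finset (Fin m) → ℝ) (a : Finset (Fin m)) : ℝ := ∑ b, chi a b * c b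

lemma hat_inj (c : Finset (Fin m) → ℝ) (h : ∀ a, hat c a = 0) : c = 0 := by
  funext b
  have h1 : ∑ a, chi a b * hat c a = 2 ^ m * c b := by
    unfold hat
    simp only [Finset.mul_sum]
    rw [Finset.sum_comm]
    have : ∀ x, ∑ a, chi a b * (chi a x * c x) = (if b = x then 2 ^ m else 0) * c x := by
      intro x
      rw [← chi_orth, Finset.sum_mul]
      exact Finset.sum_congr rfl (fun a _ => by ring)
    rw [Finset.sum_congr rfl (fun x _ => this x)]
    simp
  simp only [h, mul_zero, Finset.sum_const_zero] at h1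
  have h2 : (2 : ℝ) ^ m ≠ 0 := by positivity
  have := (mul_eq_zero.1 h1.symm).resolve_left h2
  simpa using this

/-- the twisted signs -/
def yy (al de : Finset (Fin m)) (bs i : Fin m) (b : Finset (Fin m)) : ℝ :=
  if i = bs then chi (symmDiff al de) b else sg i b

def om (al de : Finset (Fin m)) (bs : Fin m) (S : Finset (Fin m)) : Finset (Fin m) :=
  if bs ∈ S then symmDiff S ((symmDiff al de).erase bs) else S

lemma chi_erase {a : Finset (Fin m)} {i : Fin m} (h : i ∈ a) (b : Finset (Fin m)) :
    chi a b = sg i b * chi (a.erase i) b := by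
  unfold chi
  exact (Finset.mul_prod_erase a (fun i => sg i b) h).symm

lemma prod_yy {al de : Finset (Fin m)} {bs : Fin m} (h1 : bs ∈ al) (h2 : bs ∉ de)
    (S : Finset (Fin m)) (b : Finset (Fin m)) :
    ∏ i ∈ S, yy al de bs i b = chi (om al de bs S) b := by
  have hm : bs ∈ symmDiff al de := by simp [Finset.mem_symmDiff, h1, h2]
  unfold om
  split_ifs with h
  · rw [← Finset.mul_prod_erase S _ h, chi_symmDiff, chi_erase h]
    have e1 : yy al de bs bs b = sg bs b * chi ((symmDiff al de).erase bs) b := by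
      unfold yy
      rw [if_pos rfl, chi_erase hm]
    have e2 : ∏ i ∈ S.erase bs, yy al de bs i b = chi (S.erase bs) b := by
      unfold chi
      apply Finset.prod_congr rfl
      intro i hi
      unfold yy
      rw [if_neg (Finset.ne_of_mem_erase hi)]
    rw [e1, e2]
    ring
  · unfold chi
    apply Finset.prod_congr rfl
    intro i hi
    unfold yy
    rw [if_neg]
    rintro rfl
    exact h hi

lemma yy_cases (al de : Finset (Fin m)) (bs i : Fin m) (b : Finset (Fin m)) :
    yy al de bs i b = 1 ∨ yy al de bs i b = -1 := by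
  unfold yy
  split_ifs
  · exact chi_cases _ _
  · exact sg_cases _ _

open Classical in
noncomputable def row (al de : Finset (Fin m)) (bs : Fin m) (b : Finset (Fin m)) : ℝ :=
  if ∀ i ∈ al, yy al de bs i b = 1 then - chi de b else chi de b

lemma row_cases (al de : Finset (Fin m)) (bs : Fin m) (b : Finset (Fin m)) :
    row al de bs b = 1 ∨ row al de bs b = -1 := by
  unfold row
  rcases chi_cases de b with h | h <;> split_ifs <;> simp [h]

lemma prod_one_add_yy (al de : Finset (Fin m)) (bs : Fin m) (b : Finset (Fin m)) :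
    2 ^ al.card * row al de bs b
      = 2 ^ al.card * chi de b - 2 * (chi de b * ∏ i ∈ al, (1 + yy al de bs i b)) := by
  unfold row
  split_ifs with h
  · have : ∏ i ∈ al, (1 + yy al de bs i b) = 2 ^ al.card := by
      rw [Finset.prod_congr rfl (fun i hi => by rw [h i hi])]
      simp
      norm_num
    rw [this]
    ring
  · have : ∏ i ∈ al, (1 + yy al de bs i b) = 0 := by
      push Not at h
      obtain ⟨i, hi, hne⟩ := h
      apply Finset.prod_eq_zero hi
      rcases yy_cases al de bs i b with h' | h'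
      · exact absurd h' hne
      · rw [h']; norm_num
    rw [this]
    ring

lemma row_identity {al de : Finset (Fin m)} {bs : Fin m} (h1 : bs ∈ al) (h2 : bs ∉ de)
    (c : Finset (Fin m) → ℝ) (h0 : ∑ b, row al de bs b * c b = 0) :
    2 ^ (al.card - 1) * hat c de = ∑ S ∈ al.powerset, hat c (symmDiff de (om al de bs S)) := by
  have hk : 1 ≤ al.card := Finset.card_pos.2 ⟨bs, h1⟩
  have e1 : ∑ b, 2 ^ al.card * row al de bs b * c b = 0 := by
    simp only [mul_assoc, ← Finset.mul_sum, h0, mul_zero]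
  simp only [prod_one_add_yy, sub_mul, Finset.sum_sub_distrib, Finset.prod_one_add] at e1
  have e2 : ∑ b, 2 ^ al.card * chi de b * c b = 2 ^ al.card * hat c de := by
    unfold hat
    rw [Finset.mul_sum]
    exact Finset.sum_congr rfl (fun b _ => by ring)
  have e3 : ∑ b, 2 * (chi de b * ∑ S ∈ al.powerset, ∏ i ∈ S, yy al de bs i b) * c b
      = 2 * ∑ S ∈ al.powerset, hat c (symmDiff de (om al de bs S)) := by
    unfold hat
    rw [Finset.sum_comm, Finset.mul_sum]
    apply Finset.sum_congr rfl
    intro b _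
    rw [mul_assoc, Finset.mul_sum, Finset.sum_mul]
    congr 1
    apply Finset.sum_congr rfl
    intro S _
    rw [prod_yy h1 h2, chi_symmDiff]
  rw [e2, e3] at e1
  have e4 : (2 : ℝ) ^ al.card = 2 * 2 ^ (al.card - 1) := by
    rw [← pow_succ']
    congr 1
    omega
  rw [e4] at e1
  linarith

lemma om_singleton {al de : Finset (Fin m)} {bs : Fin m} (h1 : bs ∈ al) (h2 : bs ∉ de) :
    symmDiff de (om al de bs {bs}) = al := by
  unfold om
  rw [if_pos (Finset.mem_singleton_self _)]
  ext i
  by_cases h : i = bs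
  · subst h
    simp [Finset.mem_symmDiff, h1, h2]
  · by_cases h3 : i ∈ al <;> by_cases h4 : i ∈ de <;> simp [Finset.mem_symmDiff, h, h3, h4]

lemma om_lt {al de : Finset (Fin m)} {bs : Fin m} (h1 : bs ∈ al) (h2 : bs ∉ de)
    (h3 : ∀ b ∈ de, b ∉ al → b < bs) {S : Finset (Fin m)} (hS : S ⊆ al) (hne : S ≠ {bs}) :
    toColex (symmDiff de (om al de bs S)) < toColex al := by
  rw [Finset.Colex.toColex_lt_toColex_iff_exists_forall_lt]
  unfold om
  split_ifs with h
  · have : ∃ s ∈ S, s ≠ bs := by
      by_contra hc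
      push Not at hc
      exact hne (Finset.eq_singleton_iff_unique_mem.2 ⟨h, hc⟩)
    obtain ⟨s, hs, hsb⟩ := this
    refine ⟨s, hS hs, ?_, ?_⟩
    · have := hS hs
      by_cases h4 : s ∈ de <;> simp [Finset.mem_symmDiff, h4, hs, this, hsb]
    · intro b hb hba
      exfalso
      have hbS : b ∉ S := fun h => hba (hS h)
      have hbb : b ≠ bs := by rintro rfl; exact hba h1
      by_cases h4 : b ∈ de <;> simp [Finset.mem_symmDiff, h4, hbS, hba, hbb] at hb
  · refine ⟨bs, h1, ?_, ?_⟩
    · simp [Finset.mem_symmDiff, h2, h]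
    · intro b hb hba
      have hbS : b ∉ S := fun h => hba (hS h)
      apply h3 b _ hba
      simpa [Finset.mem_symmDiff, hbS] using hb

lemma om_injOn {al de : Finset (Fin m)} {bs : Fin m} 
    {S T : Finset (Fin m)} (h : symmDiff de (om al de bs S) = symmDiff de (om al de bs T)) :
    S = T := by
  have h' : om al de bs S = om al de bs T := symmDiff_right_injective de h
  have key : bs ∈ S ↔ bs ∈ T := by
    have h3 : bs ∈ om al de bs S ↔ bs ∈ om al de bs T := by rw [h']
    unfold om at h3
    by_cases hS : bs ∈ S <;> by_cases hT : bs ∈ T <;>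
      simp [hS, hT, Finset.mem_symmDiff] at h3 ⊢
  unfold om at h'
  by_cases hS : bs ∈ S
  · rw [if_pos hS, if_pos (key.1 hS)] at h'
    exact symmDiff_left_injective _ h'
  · rw [if_neg hS, if_neg (fun h => hS (key.2 h))] at h'
    exact h'

lemma exists_pred (I : Finset (Fin m) → Prop) (b0 : Finset (Fin m)) (hI0 : I b0)
    (hmin : ∀ j, I j → toColex b0 ≤ toColex j) (al : Finset (Fin m)) (hal : I al) (h : al ≠ b0) :
    ∃ (de : Finset (Fin m)) (bs : Fin m),
    I de ∧ bs ∈ al ∧ bs ∉ de ∧ (∀ b ∈ de, b ∉ al → b < bs) ∧ toColex de < toColex al ∧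
    (∀ j, I j → toColex j < toColex al → toColex j ≤ toColex de) := by
  classical
  have hne : (Finset.univ.filter (fun j : Finset (Fin m) => I j ∧ toColex j < toColex al)).Nonempty := by
    refine ⟨b0, Finset.mem_filter.2 ⟨Finset.mem_univ _, hI0, ?_⟩⟩
    exact lt_of_le_of_ne (hmin al hal) (fun h' => h (toColex.injective h').symm)
  obtain ⟨de, hde, hmax⟩ := Finset.exists_max_image _ (fun j : Finset (Fin m) => toColex j) hne
  obtain ⟨_, hb, hlt⟩ := Finset.mem_filter.1 hde
  obtain ⟨bs, h1, h2, h3⟩ := Finset.Colex.toColex_lt_toColex_iff_exists_forall_lt.1 hlt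
  exact ⟨de, bs, hb, h1, h2, h3, hlt, fun j hj hjl =>
    hmax j (Finset.mem_filter.2 ⟨Finset.mem_univ _, hj, hjl⟩)⟩

end Walsh

lemma growth {J : Type} [Fintype J] [LinearOrder J] (h : J → ℝ) (g : J → ℕ) (I : J → Prop)
    (b0 : J) (hb0 : ∀ j, I j → b0 ≤ j) (hg0 : g b0 = 0)
    (hz : ∀ j, ¬ I j → h j = 0) (hgz : ∀ j, ¬ I j → g j = 0)
    (hrec : ∀ j, I j → j ≠ b0 → 1 ≤ g j ∧ ∃ d, d < j ∧ I d ∧ (∀ i, I i → i < j → i ≤ d) ∧
      2 ^ (g j + 1) * |h d| - ∑ i ∈ Finset.univ.filter (fun i => i < j), |h i| ≤ |h j|) (j : J) :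
    I j → ∑ i ∈ Finset.univ.filter (fun i => i ≤ j), |h i| ≤ 2 * |h j| ∧
      (∏ i ∈ Finset.univ.filter (fun i => i ≤ j), (2 : ℝ) ^ (g i)) * |h b0| ≤ |h j| := by
  induction j using WellFoundedLT.induction with
  | ind j ih =>
    intro hj
    have hsplit : Finset.univ.filter (fun i => i ≤ j)
        = insert j (Finset.univ.filter (fun i => i < j)) := by
      ext i
      simp [le_iff_eq_or_lt]
    have hnot : j ∉ Finset.univ.filter (fun i => i < j) := by simp
    by_cases h0 : j = b0
    · subst h0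
      have hout : ∀ i ∈ Finset.univ.filter (fun i => i < j), ¬ I i := by
        intro i hi hI
        exact absurd (hb0 i hI) (not_le.2 (Finset.mem_filter.1 hi).2)
      have s1 : ∑ i ∈ Finset.univ.filter (fun i => i < j), |h i| = 0 := by
        apply Finset.sum_eq_zero
        intro i hi
        rw [hz i (hout i hi), abs_zero]
      have s2 : ∏ i ∈ Finset.univ.filter (fun i => i < j), (2 : ℝ) ^ (g i) = 1 := by
        apply Finset.prod_eq_one
        intro i hi
        rw [hgz i (hout i hi), pow_zero]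
      rw [hsplit, Finset.sum_insert hnot, Finset.prod_insert hnot, s1, s2, hg0]
      constructor
      · have := abs_nonneg (h j)
        linarith
      · simp
    · obtain ⟨hg1, d, hd, hId, hmax, hr⟩ := hrec j hj h0
      obtain ⟨i1, i2⟩ := ih d hd hId
      have hsub : Finset.univ.filter (fun i => i ≤ d) ⊆ Finset.univ.filter (fun i => i < j) := by
        intro i hi
        simp only [Finset.mem_filter, Finset.mem_univ, true_and] at hi ⊢
        exact lt_of_le_of_lt hi hd
      have hout : ∀ i ∈ Finset.univ.filter (fun i => i < j),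
          i ∉ Finset.univ.filter (fun i => i ≤ d) → ¬ I i := by
        intro i hi hi2 hI
        simp only [Finset.mem_filter, Finset.mem_univ, true_and] at hi hi2
        exact hi2 (hmax i hI hi)
      have s1 : ∑ i ∈ Finset.univ.filter (fun i => i < j), |h i|
          = ∑ i ∈ Finset.univ.filter (fun i => i ≤ d), |h i| := by
        symm
        apply Finset.sum_subset hsub
        intro i hi hi2
        rw [hz i (hout i hi hi2), abs_zero]
      have s2 : ∏ i ∈ Finset.univ.filter (fun i => i < j), (2 : ℝ) ^ (g i)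
          = ∏ i ∈ Finset.univ.filter (fun i => i ≤ d), (2 : ℝ) ^ (g i) := by
        symm
        apply Finset.prod_subset hsub
        intro i hi hi2
        rw [hgz i (hout i hi hi2), pow_zero]
      obtain ⟨t, ht⟩ : ∃ t, g j = t + 1 := ⟨g j - 1, by omega⟩
      rw [ht, s1] at hr
      have hd0 := abs_nonneg (h d)
      have hp : (1 : ℝ) ≤ 2 ^ t := one_le_pow₀ (by norm_num)
      have e3 : (2 : ℝ) ^ (t + 1 + 1) = 4 * 2 ^ t := by ring
      have e4 : (2 : ℝ) ^ (t + 1) = 2 * 2 ^ t := by ring
      have hq : |h d| ≤ 2 ^ t * |h d| := by nlinarith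
      have hgrow : 2 ^ (t + 1) * |h d| ≤ |h j| := by
        rw [e3] at hr
        rw [e4]
        nlinarith
      rw [hsplit, Finset.sum_insert hnot, Finset.prod_insert hnot, s1, s2, ht]
      constructor
      · rw [e4] at hgrow
        nlinarith
      · calc 2 ^ (t + 1) * (∏ i ∈ Finset.univ.filter (fun i => i ≤ d), (2 : ℝ) ^ (g i)) * |h b0|
            = 2 ^ (t + 1) * ((∏ i ∈ Finset.univ.filter (fun i => i ≤ d), (2 : ℝ) ^ (g i))
              * |h b0|) := by ring
          _ ≤ 2 ^ (t + 1) * |h d| := by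
            apply mul_le_mul_of_nonneg_left i2
            positivity
          _ ≤ |h j| := hgrow

section Main
variable {m : ℕ}

noncomputable instance instFCol : Fintype (Colex (Finset (Fin m))) :=
  Fintype.ofEquiv (Finset (Fin m)) toColex

open Classical in
noncomputable def gg (I : Finset (Fin m) → Prop) (b0 j : Finset (Fin m)) : ℕ :=
  if I j ∧ j ≠ b0 then j.card - 2 else 0

lemma partA (I : Finset (Fin m) → Prop) (b0 : Finset (Fin m)) (hI0 : I b0)
    (hmin : ∀ j, I j → toColex b0 ≤ toColex j) (hI3 : ∀ j, I j → 3 ≤ j.card)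
    (htop : I Finset.univ) :
    ∃ A : {al : Finset (Fin m) // al ≠ b0} → Finset (Fin m) → ℝ,
    (∀ i b, A i b = 1 ∨ A i b = -1) ∧ (∀ i, ¬ I i.1 → ∀ b, A i b = chi i.1 b) ∧
    ∀ c : Finset (Fin m) → ℝ, (∀ i, ∑ b, A i b * c b = 0) →
      (∀ j, ¬ I j → hat c j = 0) ∧
      (2 : ℝ) ^ (∑ j, gg I b0 j) * |hat c b0| ≤ |hat c Finset.univ| ∧
      (hat c b0 = 0 → c = 0) := by
  classical
  have : Nonempty (Fin m) := by
    have := hI3 _ hI0
    obtain ⟨x, _⟩ := Finset.card_pos.1 (show 0 < b0.card by omega)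
    exact ⟨x⟩
  choose! pr bs hBig hbs1 hbs2 hbs3 hlt hmax using (exists_pred I b0 hI0 hmin)
  refine ⟨fun al b => if I al.1 then row al.1 (pr al.1) (bs al.1) b else chi al.1 b,
    ?_, ?_, ?_⟩
  · intro i b
    beta_reduce
    split_ifs
    · exact row_cases _ _ _ _
    · exact chi_cases _ _
  · intro i hi b
    simp [hi]
  intro c hk
  have hsmall : ∀ j : Finset (Fin m), ¬ I j → hat c j = 0 := by
    intro j hj
    have := hk ⟨j, by rintro rfl; exact hj hI0⟩
    simp only [hj, if_false] at this
    exact this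
  have hid : ∀ al : Finset (Fin m), I al → al ≠ b0 →
      2 ^ (al.card - 1) * hat c (pr al)
        = hat c al + ∑ S ∈ al.powerset.erase {bs al}, hat c (symmDiff (pr al) (om al (pr al) (bs al) S)) := by
    intro al h0 h3
    have h1 := hk ⟨al, h3⟩
    simp only [h0, if_true] at h1
    rw [row_identity (hbs1 al h0 h3) (hbs2 al h0 h3) c h1]
    rw [← Finset.add_sum_erase _ _ (show {bs al} ∈ al.powerset by
      rw [Finset.mem_powerset, Finset.singleton_subset_iff]; exact hbs1 al h0 h3)]
    rw [om_singleton (hbs1 al h0 h3) (hbs2 al h0 h3)]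
  have hbd : ∀ al : Finset (Fin m), I al → al ≠ b0 →
      |∑ S ∈ al.powerset.erase {bs al}, hat c (symmDiff (pr al) (om al (pr al) (bs al) S))|
        ≤ ∑ i ∈ Finset.univ.filter (fun i : Colex (Finset (Fin m)) => i < toColex al),
          |hat c (ofColex i)| := by
    intro al h0 h3
    refine (Finset.abs_sum_le_sum_abs _ _).trans ?_
    have hinj : Set.InjOn (fun S => toColex (symmDiff (pr al) (om al (pr al) (bs al) S)))
        (al.powerset.erase {bs al} : Set (Finset (Fin m))) := by
      intro S _ T _ h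
      exact om_injOn (toColex.injective h)
    have h1 : ∑ S ∈ al.powerset.erase {bs al}, |hat c (symmDiff (pr al) (om al (pr al) (bs al) S))|
        = ∑ i ∈ (al.powerset.erase {bs al}).image
            (fun S => toColex (symmDiff (pr al) (om al (pr al) (bs al) S))), |hat c (ofColex i)| := by
      rw [Finset.sum_image]
      · rfl
      · exact_mod_cast hinj
    rw [h1]
    apply Finset.sum_le_sum_of_subset_of_nonneg
    · intro i hi
      obtain ⟨S, hS, rfl⟩ := Finset.mem_image.1 hi
      obtain ⟨hS1, hS2⟩ := Finset.mem_erase.1 hS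
      rw [Finset.mem_filter]
      exact ⟨Finset.mem_univ _, om_lt (hbs1 al h0 h3) (hbs2 al h0 h3) (hbs3 al h0 h3)
        (Finset.mem_powerset.1 hS2) hS1⟩
    · intro i _ _
      exact abs_nonneg _
  refine ⟨hsmall, ?_, ?_⟩
  · have hg := growth (J := Colex (Finset (Fin m))) (fun x => hat c (ofColex x))
      (fun x => gg I b0 (ofColex x)) (fun x => I (ofColex x)) (toColex b0)
      (fun j hj => hmin _ hj) (by simp [gg]) (fun j hj => hsmall _ hj)
      (fun j hj => by simp [gg, hj])
      (fun j hj hne => by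
        have hj0 : ofColex j ≠ b0 := fun h => hne (congrArg toColex h)
        have h3 : 3 ≤ (ofColex j).card := hI3 _ hj
        have hgj : gg I b0 (ofColex j) = (ofColex j).card - 2 := by
          unfold gg
          rw [if_pos ⟨hj, hj0⟩]
        refine ⟨by rw [hgj]; omega, toColex (pr (ofColex j)), hlt _ hj hj0, hBig _ hj hj0,
          fun i hi hij => hmax _ hj hj0 _ hi hij, ?_⟩
        have e1 := hid _ hj hj0
        have e2 := hbd _ hj hj0
        have e3 : 2 ^ ((ofColex j).card - 1) * |hat c (pr (ofColex j))|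
            = |2 ^ ((ofColex j).card - 1) * hat c (pr (ofColex j))| := by
          rw [abs_mul, abs_of_nonneg (by positivity : (0 : ℝ) ≤ 2 ^ ((ofColex j).card - 1))]
        have e4 := abs_add_le (hat c (ofColex j)) (∑ S ∈ (ofColex j).powerset.erase {bs (ofColex j)},
          hat c (symmDiff (pr (ofColex j)) (om (ofColex j) (pr (ofColex j)) (bs (ofColex j)) S)))
        rw [← e1, ← e3] at e4
        have e5 : ∑ i ∈ Finset.univ.filter (fun i : Colex (Finset (Fin m)) => i < toColex (ofColex j)),
            |hat c (ofColex i)| = ∑ i ∈ Finset.univ.filter (fun i : Colex (Finset (Fin m)) => i < j),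
            |hat c (ofColex i)| := rfl
        rw [e5] at e2
        have e6 : gg I b0 (ofColex j) + 1 = (ofColex j).card - 1 := by omega
        rw [e6]
        show 2 ^ ((ofColex j).card - 1) * |hat c (pr (ofColex j))| - _ ≤ _
        linarith)
      (toColex Finset.univ)
    obtain ⟨-, h2⟩ := hg htop
    have hall : Finset.univ.filter (fun i : Colex (Finset (Fin m)) => i ≤ toColex Finset.univ)
        = Finset.univ := by
      rw [Finset.filter_eq_self]
      intro i _
      have : i ≤ (⊤ : Colex (Finset (Fin m))) := le_top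
      exact this
    rw [hall, Finset.prod_pow_eq_pow_sum] at h2
    have hsum : ∑ i : Colex (Finset (Fin m)), gg I b0 (ofColex i) = ∑ j, gg I b0 j :=
      Equiv.sum_comp ofColex (fun j : Finset (Fin m) => gg I b0 j)
    rw [hsum] at h2
    exact h2
  · intro h0
    apply hat_inj
    have : ∀ x : Colex (Finset (Fin m)), hat c (ofColex x) = 0 := by
      intro x
      induction x using WellFoundedLT.induction with
      | ind x ih =>
        by_cases hx : I (ofColex x)
        · by_cases hx0 : ofColex x = b0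
          · rw [hx0]
            exact h0
          · have e1 := hid _ hx hx0
            have e2 := hbd _ hx hx0
            have e3 : ∑ i ∈ Finset.univ.filter (fun i : Colex (Finset (Fin m)) => i < toColex (ofColex x)),
                |hat c (ofColex i)| = 0 := by
              apply Finset.sum_eq_zero
              intro i hi
              rw [ih i (Finset.mem_filter.1 hi).2, abs_zero]
            rw [e3] at e2
            have e4 := abs_nonpos_iff.1 e2
            have e5 : hat c (pr (ofColex x)) = 0 := ih (toColex (pr (ofColex x))) (hlt _ hx hx0)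
            rw [e4, e5] at e1
            simpa using e1.symm
        · exact hsmall _ hx
    intro a
    exact this (toColex a)

end Main

section Package

def EX (m : ℕ) : ℕ := ∑ j : Finset (Fin m), (j.card - 2)

lemma EX_lower (m : ℕ) : 2 ^ m * m ≤ 2 * EX m + 2 ^ m * 4 := by
  have h1 : EX m = ∑ j : Finset (Fin m), (jᶜ.card - 2) := by
    unfold EX
    exact (Equiv.sum_comp (compl_involutive (α := Finset (Fin m))).toPerm
      (fun j : Finset (Fin m) => (j.card - 2))).symm
  have h2 : ∑ j : Finset (Fin m), m ≤ ∑ j : Finset (Fin m), ((j.card - 2) + (jᶜ.card - 2) + 4) := by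
    apply Finset.sum_le_sum
    intro j _
    have := Finset.card_add_card_compl j
    rw [Fintype.card_fin] at this
    omega
  rw [Finset.sum_add_distrib, Finset.sum_add_distrib, ← h1] at h2
  simp only [Finset.sum_const, Finset.card_univ, Fintype.card_finset, Fintype.card_fin,
    smul_eq_mul] at h2
  unfold EX at *
  omega

variable {m : ℕ}

/-- the four switches -/
noncomputable def xi (e0 e1 : Fin m) (q : Bool × Bool) (b : Finset (Fin m)) : ℝ :=
  1 / 2 - 1 / 2 * ((if q.1 then 1 else -1) * sg e0 b) - 1 / 2 * ((if q.2 then 1 else -1) * sg e1 b)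
    - 1 / 2 * ((if q.1 then 1 else -1) * (if q.2 then 1 else -1) * (sg e0 b * sg e1 b))

lemma xi_cases (e0 e1 : Fin m) (q : Bool × Bool) (b : Finset (Fin m)) :
    xi e0 e1 q b = 1 ∨ xi e0 e1 q b = -1 := by
  obtain ⟨q1, q2⟩ := q
  unfold xi
  rcases sg_cases e0 b with h | h <;> rcases sg_cases e1 b with h' | h' <;> rw [h, h'] <;>
    cases q1 <;> cases q2 <;> norm_num

lemma xi_neg (e0 e1 : Fin m) (b : Finset (Fin m)) : ∃ q, xi e0 e1 q b = -1 := by
  rcases sg_cases e0 b with h | h <;> rcases sg_cases e1 b with h' | h'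
  · exact ⟨(true, true), by unfold xi; rw [h, h']; norm_num⟩
  · exact ⟨(true, false), by unfold xi; rw [h, h']; norm_num⟩
  · exact ⟨(false, true), by unfold xi; rw [h, h']; norm_num⟩
  · exact ⟨(false, false), by unfold xi; rw [h, h']; norm_num⟩

lemma xi_pos (e0 e1 : Fin m) (b : Finset (Fin m)) : ∃ q, xi e0 e1 q b = 1 := by
  rcases sg_cases e0 b with h | h <;> rcases sg_cases e1 b with h' | h'
  · exact ⟨(false, true), by unfold xi; rw [h, h']; norm_num⟩
  · exact ⟨(false, true), by unfold xi; rw [h, h']; norm_num⟩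
  · exact ⟨(true, true), by unfold xi; rw [h, h']; norm_num⟩
  · exact ⟨(true, true), by unfold xi; rw [h, h']; norm_num⟩

lemma chi_singleton (e : Fin m) (b : Finset (Fin m)) : chi {e} b = sg e b := by
  unfold chi
  simp

lemma chi_pair {e0 e1 : Fin m} (h : e0 ≠ e1) (b : Finset (Fin m)) :
    chi {e0, e1} b = sg e0 b * sg e1 b := by
  unfold chi
  rw [Finset.prod_pair h]

lemma sum_xi {e0 e1 : Fin m} (h : e0 ≠ e1) (s : Finset (Fin m)) (c : Finset (Fin m) → ℝ)
    (h0 : hat c (symmDiff s {e0}) = 0) (h1 : hat c (symmDiff s {e1}) = 0)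
    (h2 : hat c (symmDiff s {e0, e1}) = 0) (q : Bool × Bool) :
    ∑ b, chi s b * xi e0 e1 q b * c b = 1 / 2 * hat c s := by
  have e : ∑ b, chi s b * xi e0 e1 q b * c b = 1 / 2 * hat c s
      - 1 / 2 * (if q.1 then 1 else -1) * hat c (symmDiff s {e0})
      - 1 / 2 * (if q.2 then 1 else -1) * hat c (symmDiff s {e1})
      - 1 / 2 * ((if q.1 then 1 else -1) * (if q.2 then 1 else -1)) * hat c (symmDiff s {e0, e1}) := by
    unfold hat
    rw [Finset.mul_sum, Finset.mul_sum, Finset.mul_sum, Finset.mul_sum, ← Finset.sum_sub_distrib,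
      ← Finset.sum_sub_distrib, ← Finset.sum_sub_distrib]
    apply Finset.sum_congr rfl
    intro b _
    rw [chi_symmDiff, chi_symmDiff, chi_symmDiff, chi_singleton, chi_singleton, chi_pair h]
    unfold xi
    ring
  rw [e, h0, h1, h2]
  ring

lemma rv_decide {x : ℝ} [Decidable (x = 1)] (h : x = 1 ∨ x = -1) :
    rv (decide (x = 1)) = (1 + x) / 2 := by
  rcases h with h | h
  · simp [rv, h]
  · have : ¬ (x = 1) := by rw [h]; norm_num
    simp only [rv, this, decide_false, Bool.toNat_false, Nat.cast_zero]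
    rw [h]; norm_num

lemma pack (m : ℕ) (hm : 6 ≤ m) : ∃ (R : Type) (_ : Fintype R) (E : ℕ)
    (A : R → Finset (Fin m) → Bool) (F G : Bool × Bool → Finset (Fin m) → Bool),
    Fintype.card R + 1 = 2 ^ m ∧ 2 ^ m * m ≤ 2 * E + 2 ^ m * 4 + 8 * m ∧
    (∃ r, ∀ b, A r b = true) ∧
    (∀ b, (∃ q, F q b = true) ∧ (∃ q, F q b = false) ∧ (∃ q, G q b = true) ∧ (∃ q, G q b = false)) ∧
    (∀ c : Finset (Fin m) → ℝ, (∀ r, ∑ b, c b * rv (A r b) = 0) → ∃ S s : ℝ,
      (∀ q, ∑ b, c b * rv (F q b) = S) ∧ (∀ q, ∑ b, c b * rv (G q b) = - s) ∧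
      2 ^ E * |s| ≤ |S| ∧ (s = 0 → c = 0)) := by
  classical
  let e0 : Fin m := ⟨0, by omega⟩
  let e1 : Fin m := ⟨1, by omega⟩
  let e2 : Fin m := ⟨2, by omega⟩
  have h01 : e0 ≠ e1 := by simp [e0, e1]
  have h02 : e0 ≠ e2 := by simp [e0, e2]
  have h12 : e1 ≠ e2 := by simp [e1, e2]
  let b0 : Finset (Fin m) := {e0, e1, e2}
  have hb0c : b0.card = 3 := by
    simp only [b0]
    rw [Finset.card_insert_of_notMem (by simp [h01, h02]), Finset.card_pair h12]
  let t0 : Finset (Fin m) := symmDiff Finset.univ {e0}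
  let t1 : Finset (Fin m) := symmDiff Finset.univ {e1}
  let t2 : Finset (Fin m) := symmDiff Finset.univ {e0, e1}
  let I : Finset (Fin m) → Prop := fun j => 3 ≤ j.card ∧ j ≠ t0 ∧ j ≠ t1 ∧ j ≠ t2
  have hb0t0 : b0 ≠ t0 := by
    intro h
    have : e0 ∈ t0 := by rw [← h]; simp [b0]
    simp [t0, Finset.mem_symmDiff] at this
  have hb0t1 : b0 ≠ t1 := by
    intro h
    have : e1 ∈ t1 := by rw [← h]; simp [b0]
    simp [t1, Finset.mem_symmDiff] at this
  have hb0t2 : b0 ≠ t2 := by
    intro h
    have : e1 ∈ t2 := by rw [← h]; simp [b0]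
    simp [t2, Finset.mem_symmDiff] at this
  have hI0 : I b0 := ⟨by omega, hb0t0, hb0t1, hb0t2⟩
  have htop : I Finset.univ := by
    refine ⟨by rw [Finset.card_univ, Fintype.card_fin]; omega, ?_, ?_, ?_⟩
    · intro h
      have : e0 ∈ t0 := by rw [← h]; simp
      simp [t0, Finset.mem_symmDiff] at this
    · intro h
      have : e1 ∈ t1 := by rw [← h]; simp
      simp [t1, Finset.mem_symmDiff] at this
    · intro h
      have : e1 ∈ t2 := by rw [← h]; simp
      simp [t2, Finset.mem_symmDiff] at this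
  have hmin : ∀ j, I j → toColex b0 ≤ toColex j := by
    intro j hj
    by_cases h : j = b0
    · rw [h]
    · apply le_of_lt
      rw [Finset.Colex.toColex_lt_toColex_iff_exists_forall_lt]
      have : ∃ a ∈ j, a ∉ b0 := by
        by_contra hc
        push Not at hc
        exact h (Finset.eq_of_subset_of_card_le hc (by rw [hb0c]; exact hj.1))
      obtain ⟨a, ha, hab⟩ := this
      refine ⟨a, ha, hab, ?_⟩
      intro b hb _
      have ha3 : 3 ≤ a.val := by
        by_contra hc
        apply hab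
        simp only [b0, Finset.mem_insert, Finset.mem_singleton, e0, e1, e2, Fin.ext_iff]
        omega
      have hb3 : b.val < 3 := by
        simp only [b0, Finset.mem_insert, Finset.mem_singleton, e0, e1, e2, Fin.ext_iff] at hb
        omega
      exact Fin.lt_def.2 (by omega)
  obtain ⟨A, hA, hAchi, hker⟩ := partA I b0 hI0 hmin (fun j hj => hj.1) htop
  refine ⟨{al : Finset (Fin m) // al ≠ b0}, inferInstance, ∑ j, gg I b0 j,
    fun r b => decide (A r b = 1),
    fun q b => decide (chi Finset.univ b * xi e0 e1 q b = 1),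
    fun q b => decide (- (chi b0 b * xi e0 e1 q b) = 1), ?_, ?_, ?_, ?_, ?_⟩
  · have h1 : Fintype.card {al : Finset (Fin m) // al ≠ b0}
        = Fintype.card (Finset (Fin m)) - Fintype.card {al : Finset (Fin m) // al = b0} :=
      Fintype.card_subtype_compl _
    rw [h1, Fintype.card_subtype_eq, Fintype.card_finset, Fintype.card_fin]
    have : 0 < 2 ^ m := by positivity
    omega
  · have h1 := EX_lower m
    have h2 : EX m ≤ ∑ j, gg I b0 j + 4 * m := by
      have h3 : ∀ j : Finset (Fin m), j.card - 2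
          ≤ gg I b0 j + (if j ∈ ({b0, t0, t1, t2} : Finset (Finset (Fin m))) then m else 0) := by
        intro j
        have hc : j.card ≤ m := by
          have := Finset.card_le_univ j
          rwa [Fintype.card_fin] at this
        by_cases hj : j ∈ ({b0, t0, t1, t2} : Finset (Finset (Fin m)))
        · rw [if_pos hj]
          omega
        · rw [if_neg hj]
          simp only [Finset.mem_insert, Finset.mem_singleton, not_or] at hj
          by_cases h4 : 3 ≤ j.card
          · have : gg I b0 j = j.card - 2 := by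
              unfold gg
              rw [if_pos ⟨⟨h4, hj.2.1, hj.2.2.1, hj.2.2.2⟩, hj.1⟩]
            omega
          · omega
      calc EX m ≤ ∑ j, (gg I b0 j + (if j ∈ ({b0, t0, t1, t2} : Finset (Finset (Fin m))) then m else 0)) :=
            Finset.sum_le_sum (fun j _ => h3 j)
        _ = ∑ j, gg I b0 j + ({b0, t0, t1, t2} : Finset (Finset (Fin m))).card * m := by
            rw [Finset.sum_add_distrib, Finset.sum_ite_mem, Finset.univ_inter, Finset.sum_const,
              smul_eq_mul]
        _ ≤ _ := by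
            have : ({b0, t0, t1, t2} : Finset (Finset (Fin m))).card ≤ 4 := Finset.card_le_four
            have := Nat.mul_le_mul_right m this
            omega
    omega
  · refine ⟨⟨∅, ?_⟩, ?_⟩
    · intro h
      rw [← h] at hb0c
      simp at hb0c
    · intro b
      rw [decide_eq_true_iff, hAchi _ (by rintro ⟨h, -⟩; simp at h)]
      exact chi_empty b
  · intro b
    obtain ⟨qn, hqn⟩ := xi_neg e0 e1 b
    obtain ⟨qp, hqp⟩ := xi_pos e0 e1 b
    refine ⟨?_, ?_, ?_, ?_⟩
    · rcases chi_cases Finset.univ b with h | h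
      · exact ⟨qp, by simp [h, hqp]⟩
      · exact ⟨qn, by simp [h, hqn]⟩
    · rcases chi_cases Finset.univ b with h | h
      · exact ⟨qn, by simp only [h, hqn]; norm_num⟩
      · exact ⟨qp, by simp only [h, hqp]; norm_num⟩
    · rcases chi_cases b0 b with h | h
      · exact ⟨qn, by simp [h, hqn]⟩
      · exact ⟨qp, by simp [h, hqp]⟩
    · rcases chi_cases b0 b with h | h
      · exact ⟨qp, by simp only [h, hqp]; norm_num⟩
      · exact ⟨qn, by simp only [h, hqn]; norm_num⟩
  · intro c hc
    have hconv : ∀ (X : Finset (Fin m) → ℝ), (∀ b, X b = 1 ∨ X b = -1) →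
        ∑ b, c b * rv (decide (X b = 1)) = (∑ b, c b) / 2 + (∑ b, X b * c b) / 2 := by
      intro X hX
      rw [Finset.sum_div, Finset.sum_div, ← Finset.sum_add_distrib]
      apply Finset.sum_congr rfl
      intro b _
      rw [rv_decide (hX b)]
      ring
    have h0 : ∑ b, c b = 0 := by
      have hne : (∅ : Finset (Fin m)) ≠ b0 := by
        intro h
        rw [← h] at hb0c
        simp at hb0c
      have h1 := hc ⟨∅, hne⟩
      have h2 : ∀ b, A ⟨∅, hne⟩ b = 1 := by
        intro b
        rw [hAchi _ (by rintro ⟨h, -⟩; simp at h)]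
        exact chi_empty b
      have h3 : ∀ b, rv (decide (A ⟨∅, hne⟩ b = 1)) = 1 := by
        intro b
        rw [rv_decide (Or.inl (h2 b)), h2 b]
        norm_num
      rw [← h1]
      apply Finset.sum_congr rfl
      intro b _
      rw [h3 b, mul_one]
    have hk : ∀ r, ∑ b, A r b * c b = 0 := by
      intro r
      have h1 := hc r
      rw [hconv (A r) (hA r), h0] at h1
      linarith
    obtain ⟨hz, hgr, h00⟩ := hker c hk
    have hnI : ∀ j : Finset (Fin m), ¬ (3 ≤ j.card) → ¬ I j := fun j h h' => h h'.1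
    have z0 : hat c (symmDiff Finset.univ {e0}) = 0 := hz _ (fun h => h.2.1 rfl)
    have z1 : hat c (symmDiff Finset.univ {e1}) = 0 := hz _ (fun h => h.2.2.1 rfl)
    have z2 : hat c (symmDiff Finset.univ {e0, e1}) = 0 := hz _ (fun h => h.2.2.2 rfl)
    have w0 : hat c (symmDiff b0 {e0}) = 0 := by
      apply hz
      apply hnI
      have : symmDiff b0 {e0} = {e1, e2} := by
        ext x
        simp only [b0, Finset.mem_symmDiff, Finset.mem_insert, Finset.mem_singleton]
        constructor
        · rintro (⟨h1 | h1, h2⟩ | ⟨h1, h2⟩)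
          · exact absurd h1 h2
          · exact h1
          · exact absurd (Or.inl h1) h2
        · rintro (h | h)
          · rw [h]; exact Or.inl ⟨Or.inr (Or.inl rfl), h01.symm⟩
          · rw [h]; exact Or.inl ⟨Or.inr (Or.inr rfl), h02.symm⟩
      rw [this, Finset.card_pair h12]
      omega
    have w1 : hat c (symmDiff b0 {e1}) = 0 := by
      apply hz
      apply hnI
      have : symmDiff b0 {e1} = {e0, e2} := by
        ext x
        simp only [b0, Finset.mem_symmDiff, Finset.mem_insert, Finset.mem_singleton]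
        constructor
        · rintro (⟨h1 | h1 | h1, h2⟩ | ⟨h1, h2⟩)
          · exact Or.inl h1
          · exact absurd h1 h2
          · exact Or.inr h1
          · exact absurd (Or.inr (Or.inl h1)) h2
        · rintro (h | h)
          · rw [h]; exact Or.inl ⟨Or.inl rfl, h01⟩
          · rw [h]; exact Or.inl ⟨Or.inr (Or.inr rfl), h12.symm⟩
      rw [this, Finset.card_pair h02]
      omega
    have w2 : hat c (symmDiff b0 {e0, e1}) = 0 := by
      apply hz
      apply hnI
      have : symmDiff b0 {e0, e1} = {e2} := by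
        ext x
        simp only [b0, Finset.mem_symmDiff, Finset.mem_insert, Finset.mem_singleton]
        constructor
        · rintro (⟨h1 | h1 | h1, h2⟩ | ⟨h1 | h1, h2⟩)
          · exact absurd (Or.inl h1) h2
          · exact absurd (Or.inr h1) h2
          · exact h1
          · exact absurd (Or.inl h1) h2
          · exact absurd (Or.inr (Or.inl h1)) h2
        · intro h
          rw [h]
          refine Or.inl ⟨Or.inr (Or.inr rfl), ?_⟩
          rintro (h' | h')
          · exact h02 h'.symm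
          · exact h12 h'.symm
      rw [this, Finset.card_singleton]
      omega
    refine ⟨1 / 4 * hat c Finset.univ, 1 / 4 * hat c b0, ?_, ?_, ?_, ?_⟩
    · intro q
      rw [hconv (fun b => chi Finset.univ b * xi e0 e1 q b) ?_, h0, sum_xi h01 _ c z0 z1 z2 q]
      · ring
      · intro b
        rcases chi_cases Finset.univ b with h | h <;> rcases xi_cases e0 e1 q b with h' | h' <;>
          rw [h, h'] <;> norm_num
    · intro q
      have e : ∑ b, -(chi b0 b * xi e0 e1 q b) * c b = - ∑ b, chi b0 b * xi e0 e1 q b * c b := by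
        rw [← Finset.sum_neg_distrib]
        exact Finset.sum_congr rfl (fun b _ => by ring)
      rw [hconv (fun b => -(chi b0 b * xi e0 e1 q b)) ?_, h0, e, sum_xi h01 _ c w0 w1 w2 q]
      · ring
      · intro b
        rcases chi_cases b0 b with h | h <;> rcases xi_cases e0 e1 q b with h' | h' <;>
          rw [h, h'] <;> norm_num
    · rw [abs_mul, abs_mul, abs_of_pos (by norm_num : (0 : ℝ) < 1 / 4)]
      nlinarith
    · intro h
      apply h00
      linarith

end Package

section Blocks
variable {R B : Type} [Fintype R] [Fintype B] [DecidableEq B] {bb τ : ℕ}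

abbrev VB (R B : Type) (bb τ : ℕ) : Type :=
  (R × Fin bb) ⊕ (R × Fin τ × Bool) ⊕ B ⊕ (Fin (bb - 2) × (Bool × Bool) × Option Bool)

def rho (A : R → B → Bool) (F G : Bool × Bool → B → Bool) : VB R B bb τ → B × Fin bb → Bool
  | Sum.inl (r, i), t => A r t.1 && decide (t.2 = i)
  | Sum.inr (Sum.inl (r, l, e)), t => !(A r t.1) && (t.2.val.testBit l == e)
  | Sum.inr (Sum.inr (Sum.inl j)), t => decide (t.1 = j)
  | Sum.inr (Sum.inr (Sum.inr (e, q, some true))), t =>
      (decide (t.2.val = e.val) && F q t.1) || (decide (t.2.val = e.val + 1) && G q t.1)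
  | Sum.inr (Sum.inr (Sum.inr (e, q, some false))), t =>
      (decide (t.2.val = e.val) && !(F q t.1)) || (decide (t.2.val = e.val + 1) && !(G q t.1))
  | Sum.inr (Sum.inr (Sum.inr (e, _, none))), t =>
      !(decide (t.2.val = e.val)) && !(decide (t.2.val = e.val + 1))

def wei (τ : ℕ) : VB R B bb τ → ℕ
  | Sum.inl _ => τ
  | Sum.inr _ => 1

lemma sum_wei (A : R → B → Bool) (F G : Bool × Bool → B → Bool) (t : B × Fin bb) :
    ∑ v : VB R B bb τ, wei τ v * (rho A F G v t).toNat
      = τ * Fintype.card R + 1 + 4 * (bb - 2) := by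
  obtain ⟨j, i⟩ := t
  rw [Fintype.sum_sum_type, Fintype.sum_sum_type, Fintype.sum_sum_type]
  have h1 : ∑ v : R × Fin bb, wei (R := R) (B := B) (bb := bb) τ (Sum.inl v)
      * (rho (τ := τ) A F G (Sum.inl v) (j, i)).toNat = ∑ r : R, τ * (A r j).toNat := by
    rw [Fintype.sum_prod_type]
    apply Finset.sum_congr rfl
    intro r _
    rw [Finset.sum_eq_single i]
    · simp [wei, rho]
    · intro i' _ h
      simp [rho, Ne.symm h]
    · simp
  have h2 : ∑ v : R × Fin τ × Bool, wei (R := R) (B := B) (bb := bb) τ (Sum.inr (Sum.inl v))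
      * (rho (τ := τ) A F G (Sum.inr (Sum.inl v)) (j, i)).toNat = ∑ r : R, τ * (!(A r j)).toNat := by
    rw [Fintype.sum_prod_type]
    apply Finset.sum_congr rfl
    intro r _
    rw [Fintype.sum_prod_type]
    have : ∀ l : Fin τ, ∑ e : Bool, wei (R := R) (B := B) (bb := bb) τ (Sum.inr (Sum.inl (r, l, e)))
        * (rho (τ := τ) A F G (Sum.inr (Sum.inl (r, l, e))) (j, i)).toNat = (!(A r j)).toNat := by
      intro l
      simp only [wei, rho, Fintype.sum_bool]
      cases A r j <;> cases Nat.testBit i.val l.val <;> simp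
    rw [Finset.sum_congr rfl (fun l _ => this l)]
    simp
  have h3 : ∑ v : B, wei (R := R) (B := B) (bb := bb) τ (Sum.inr (Sum.inr (Sum.inl v)))
      * (rho (τ := τ) A F G (Sum.inr (Sum.inr (Sum.inl v))) (j, i)).toNat = 1 := by
    rw [Finset.sum_eq_single j]
    · simp [wei, rho]
    · intro j' _ h
      simp [rho, Ne.symm h]
    · simp
  have h4 : ∑ v : Fin (bb - 2) × (Bool × Bool) × Option Bool,
      wei (R := R) (B := B) (bb := bb) τ (Sum.inr (Sum.inr (Sum.inr v)))
      * (rho (τ := τ) A F G (Sum.inr (Sum.inr (Sum.inr v))) (j, i)).toNat = 4 * (bb - 2) := by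
    rw [Fintype.sum_prod_type]
    have : ∀ e : Fin (bb - 2), ∑ v : (Bool × Bool) × Option Bool,
        wei (R := R) (B := B) (bb := bb) τ (Sum.inr (Sum.inr (Sum.inr (e, v))))
        * (rho (τ := τ) A F G (Sum.inr (Sum.inr (Sum.inr (e, v)))) (j, i)).toNat = 4 := by
      intro e
      rw [Fintype.sum_prod_type]
      have h5 : ∀ q : Bool × Bool, ∑ c : Option Bool,
          wei (R := R) (B := B) (bb := bb) τ (Sum.inr (Sum.inr (Sum.inr (e, q, c))))
          * (rho (τ := τ) A F G (Sum.inr (Sum.inr (Sum.inr (e, q, c)))) (j, i)).toNat = 1 := by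
        intro q
        rw [Fintype.sum_option, Fintype.sum_bool]
        simp only [wei, rho]
        by_cases h6 : i.val = e.val
        · have h7 : ¬ (i.val = e.val + 1) := by omega
          cases F q j <;> simp [h6]
        · by_cases h7 : i.val = e.val + 1
          · cases G q j <;> simp [h7]
          · simp [h6, h7]
      rw [Finset.sum_congr rfl (fun q _ => h5 q)]
      simp
    rw [Finset.sum_congr rfl (fun e _ => this e)]
    simp
    omega
  rw [h1, h2, h3, h4]
  have h5 : ∑ r : R, τ * (A r j).toNat + ∑ r : R, τ * (!(A r j)).toNat = τ * Fintype.card R := by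
    rw [← Finset.sum_add_distrib]
    have : ∀ r : R, τ * (A r j).toNat + τ * (!(A r j)).toNat = τ := by
      intro r
      cases A r j <;> simp
    rw [Finset.sum_congr rfl (fun r _ => this r)]
    simp
    ring
  omega

lemma val_inl (A : R → B → Bool) (F G : Bool × Bool → B → Bool) (lam : B × Fin bb → ℝ) (r : R)
    (i : Fin bb) : ∑ t, lam t * rv (rho (τ := τ) A F G (Sum.inl (r, i)) t)
      = ∑ j, lam (j, i) * rv (A r j) := by
  rw [Fintype.sum_prod_type]
  apply Finset.sum_congr rfl
  intro j _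
  rw [Finset.sum_eq_single i]
  · simp [rho]
  · intro i' _ h
    simp [rho, h, rv]
  · simp

lemma val_sep (A : R → B → Bool) (F G : Bool × Bool → B → Bool) (lam : B × Fin bb → ℝ) (r : R)
    (l : Fin τ) (e : Bool) : ∑ t, lam t * rv (rho (τ := τ) A F G (Sum.inr (Sum.inl (r, l, e))) t)
      = ∑ i : Fin bb, (if i.val.testBit l.val = e then
          (∑ j, lam (j, i) - ∑ j, lam (j, i) * rv (A r j)) else 0) := by
  rw [Fintype.sum_prod_type_right]
  apply Finset.sum_congr rfl
  intro i _
  split_ifs with h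
  · rw [← Finset.sum_sub_distrib]
    apply Finset.sum_congr rfl
    intro j _
    simp only [rho, h, rv]
    cases A r j <;> simp
  · apply Finset.sum_eq_zero
    intro j _
    simp [rho, h, rv]

lemma val_J (A : R → B → Bool) (F G : Bool × Bool → B → Bool) (lam : B × Fin bb → ℝ) (j : B) :
    ∑ t, lam t * rv (rho (τ := τ) A F G (Sum.inr (Sum.inr (Sum.inl j))) t)
      = ∑ i, lam (j, i) := by
  rw [Fintype.sum_prod_type]
  rw [Finset.sum_eq_single j]
  · simp [rho, rv]
  · intro j' _ h
    simp [rho, rv, h]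
  · simp

lemma sum_two {i0 i1 : Fin bb} (h : i0 ≠ i1) (g : Fin bb → ℝ)
    (hg : ∀ i, i ≠ i0 → i ≠ i1 → g i = 0) : ∑ i, g i = g i0 + g i1 := by
  rw [← Finset.sum_pair h]
  symm
  apply Finset.sum_subset (Finset.subset_univ _)
  intro i _ hi
  simp only [Finset.mem_insert, Finset.mem_singleton, not_or] at hi
  exact hg i hi.1 hi.2

def i0 (e : Fin (bb - 2)) : Fin bb := ⟨e.val, by omega⟩
def i1 (e : Fin (bb - 2)) : Fin bb := ⟨e.val + 1, by omega⟩

lemma i0_ne_i1 (e : Fin (bb - 2)) : i0 e ≠ i1 e := by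
  simp [i0, i1, Fin.ext_iff]

lemma val_L (A : R → B → Bool) (F G : Bool × Bool → B → Bool) (lam : B × Fin bb → ℝ)
    (e : Fin (bb - 2)) (q : Bool × Bool) :
    ∑ t, lam t * rv (rho (τ := τ) A F G (Sum.inr (Sum.inr (Sum.inr (e, q, some true)))) t)
      = ∑ j, lam (j, i0 e) * rv (F q j) + ∑ j, lam (j, i1 e) * rv (G q j) := by
  rw [Fintype.sum_prod_type_right, sum_two (i0_ne_i1 e)]
  · congr 1
    · apply Finset.sum_congr rfl
      intro j _
      have h : ¬ ((i0 e).val = e.val + 1) := by simp [i0]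
      simp [rho, rv, i0]
    · apply Finset.sum_congr rfl
      intro j _
      simp [rho, rv, i1]
  · intro i h h'
    apply Finset.sum_eq_zero
    intro j _
    have h1 : ¬ (i.val = e.val) := fun hh => h (Fin.ext hh)
    have h2 : ¬ (i.val = e.val + 1) := fun hh => h' (Fin.ext hh)
    simp [rho, rv, h1, h2]

lemma val_Lb (A : R → B → Bool) (F G : Bool × Bool → B → Bool) (lam : B × Fin bb → ℝ)
    (e : Fin (bb - 2)) (q : Bool × Bool) :
    ∑ t, lam t * rv (rho (τ := τ) A F G (Sum.inr (Sum.inr (Sum.inr (e, q, some false)))) t)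
      = (∑ j, lam (j, i0 e) - ∑ j, lam (j, i0 e) * rv (F q j))
        + (∑ j, lam (j, i1 e) - ∑ j, lam (j, i1 e) * rv (G q j)) := by
  rw [Fintype.sum_prod_type_right, sum_two (i0_ne_i1 e)]
  · rw [← Finset.sum_sub_distrib, ← Finset.sum_sub_distrib]
    congr 1
    · apply Finset.sum_congr rfl
      intro j _
      cases h : F q j <;> simp [rho, rv, i0, h]
    · apply Finset.sum_congr rfl
      intro j _
      cases h : G q j <;> simp [rho, rv, i1, h]
  · intro i h h'
    apply Finset.sum_eq_zero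
    intro j _
    have h1 : ¬ (i.val = e.val) := fun hh => h (Fin.ext hh)
    have h2 : ¬ (i.val = e.val + 1) := fun hh => h' (Fin.ext hh)
    simp [rho, rv, h1, h2]

lemma val_O (A : R → B → Bool) (F G : Bool × Bool → B → Bool) (lam : B × Fin bb → ℝ)
    (e : Fin (bb - 2)) (q : Bool × Bool) (hz : ∀ i, ∑ j, lam (j, i) = 0) :
    ∑ t, lam t * rv (rho (τ := τ) A F G (Sum.inr (Sum.inr (Sum.inr (e, q, none)))) t) = 0 := by
  rw [Fintype.sum_prod_type_right]
  apply Finset.sum_eq_zero
  intro i _
  have h1 := Finset.sum_mul Finset.univ (fun j => lam (j, i))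
    (rv (!(decide (i.val = e.val)) && !(decide (i.val = e.val + 1))))
  rw [hz, zero_mul] at h1
  exact h1.symm

/-- block vectors in the kernel, summing to zero and linked, kill all the rows -/
lemma val_zero (A : R → B → Bool) (F G : Bool × Bool → B → Bool) (hone : ∃ r, ∀ j, A r j = true)
    (lam : B × Fin bb → ℝ) (h1 : ∀ r i, ∑ j, lam (j, i) * rv (A r j) = 0)
    (h2 : ∀ j, ∑ i, lam (j, i) = 0)
    (h3 : ∀ e q, ∑ j, lam (j, i0 e) * rv (F q j) + ∑ j, lam (j, i1 e) * rv (G q j) = 0)
    (v : VB R B bb τ) : ∑ t, lam t * rv (rho A F G v t) = 0 := by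
  obtain ⟨r1, hr1⟩ := hone
  have hz : ∀ i, ∑ j, lam (j, i) = 0 := by
    intro i
    have := h1 r1 i
    simp only [hr1] at this
    simpa [rv] using this
  rcases v with ⟨r, i⟩ | ⟨r, l, e⟩ | j | ⟨e, q, _ | _ | _⟩
  · rw [val_inl, h1]
  · rw [val_sep]
    apply Finset.sum_eq_zero
    intro i _
    rw [hz, h1]
    simp
  · rw [val_J, h2]
  · exact val_O A F G lam e q hz
  · rw [val_Lb, hz, hz]
    have := h3 e q
    linarith
  · rw [val_L, h3]

lemma unique_one {I : Type} [Fintype I] (u : I → ℝ) (h : ∀ i, u i = 0 ∨ u i = 1)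
    (hs : ∑ i, u i = 1) : ∃ i0, u i0 = 1 ∧ ∀ i, i ≠ i0 → u i = 0 := by
  classical
  obtain ⟨i0, _, hi0⟩ := Finset.exists_ne_zero_of_sum_ne_zero (by rw [hs]; exact one_ne_zero)
  have h1 := (h i0).resolve_left hi0
  refine ⟨i0, h1, ?_⟩
  rw [← Finset.add_sum_erase _ _ (Finset.mem_univ i0), h1] at hs
  have h2 : ∑ i ∈ Finset.univ.erase i0, u i = 0 := by linarith
  rw [Finset.sum_eq_zero_iff_of_nonneg (fun i _ => by rcases h i with h | h <;> rw [h]; norm_num)] at h2
  intro i hi
  exact h2 i (Finset.mem_erase.2 ⟨hi, Finset.mem_univ _⟩)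

lemma exists_bit {i i' : Fin bb} (hτ : bb ≤ 2 ^ τ) (h : i ≠ i') :
    ∃ l : Fin τ, i.val.testBit l.val ≠ i'.val.testBit l.val := by
  by_contra hc
  push Not at hc
  apply h
  apply Fin.ext
  apply Nat.eq_of_testBit_eq
  intro l
  by_cases hl : l < τ
  · exact hc ⟨l, hl⟩
  · have h1 : ∀ x : Fin bb, x.val < 2 ^ l := fun x =>
      lt_of_lt_of_le x.isLt (hτ.trans (Nat.pow_le_pow_right (by norm_num) (by omega)))
    rw [Nat.testBit_lt_two_pow (h1 i), Nat.testBit_lt_two_pow (h1 i')]

lemma closure (A : R → B → Bool) (F G : Bool × Bool → B → Bool) (hone : ∃ r, ∀ j, A r j = true)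
    (hver : ∀ j, (∃ q, F q j = true) ∧ (∃ q, F q j = false) ∧ (∃ q, G q j = true) ∧
      (∃ q, G q j = false))
    (hker : ∀ c : B → ℝ, (∀ r, ∑ j, c j * rv (A r j) = 0) → ∃ S s : ℝ,
      (∀ q, ∑ j, c j * rv (F q j) = S) ∧ (∀ q, ∑ j, c j * rv (G q j) = - s))
    (hτ : bb ≤ 2 ^ τ) (lam : B × Fin bb → ℝ) (hsum : ∑ t, lam t = 1)
    (hval : ∀ v : VB R B bb τ, ∑ t, lam t * rv (rho A F G v t) = 0 ∨
      ∑ t, lam t * rv (rho A F G v t) = 1) :
    ∃ t0, ∀ v : VB R B bb τ, ∑ t, lam t * rv (rho A F G v t) = rv (rho A F G v t0) := by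
  obtain ⟨r1, hr1⟩ := hone
  have hu : ∀ i, ∑ j, lam (j, i) * rv (A r1 j) = ∑ j, lam (j, i) := by
    intro i
    apply Finset.sum_congr rfl
    intro j _
    rw [hr1 j]
    simp [rv]
  -- the block
  obtain ⟨ib, hib1, hib0⟩ := unique_one (fun i => ∑ j, lam (j, i))
    (by
      intro i
      have := hval (Sum.inl (r1, i))
      rw [val_inl, hu] at this
      exact this)
    (by
      rw [← hsum, Fintype.sum_prod_type_right])
  -- the other blocks vanish on all rows
  have hoth : ∀ r i, i ≠ ib → ∑ j, lam (j, i) * rv (A r j) = 0 := by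
    intro r i hi
    obtain ⟨l, hl⟩ := exists_bit hτ hi
    have h1 := hval (Sum.inr (Sum.inl (r, l, i.val.testBit l.val)))
    rw [val_sep] at h1
    have h2 : ∀ i' : Fin bb, (if i'.val.testBit l.val = i.val.testBit l.val then
          (∑ j, lam (j, i') - ∑ j, lam (j, i') * rv (A r j)) else 0)
        = - (if i'.val.testBit l.val = i.val.testBit l.val then
          (∑ j, lam (j, i') * rv (A r j)) else 0) := by
      intro i'
      split_ifs with h
      · have : i' ≠ ib := by
          rintro rfl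
          exact hl h.symm
        rw [hib0 i' this]
        ring
      · simp
    rw [Finset.sum_congr rfl (fun i' _ => h2 i'), Finset.sum_neg_distrib] at h1
    have h3 : ∀ i' ∈ Finset.univ, 0 ≤ (if i'.val.testBit l.val = i.val.testBit l.val then
          (∑ j, lam (j, i') * rv (A r j)) else 0) := by
      intro i' _
      split_ifs
      · have := hval (Sum.inl (r, i'))
        rw [val_inl] at this
        rcases this with h | h <;> rw [h]
        norm_num
      · exact le_refl _
    have h4 : ∑ i' : Fin bb, (if i'.val.testBit l.val = i.val.testBit l.val then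
          (∑ j, lam (j, i') * rv (A r j)) else 0) = 0 := by
      have := Finset.sum_nonneg h3
      rcases h1 with h | h <;> linarith
    rw [Finset.sum_eq_zero_iff_of_nonneg h3] at h4
    have := h4 i (Finset.mem_univ _)
    simpa using this
  -- the column
  obtain ⟨jb, hjb1, hjb0⟩ := unique_one (fun j => ∑ i, lam (j, i))
    (by
      intro j
      have := hval (Sum.inr (Sum.inr (Sum.inl j)))
      rw [val_J] at this
      exact this)
    (by
      rw [← hsum, Fintype.sum_prod_type])
  let eta : B × Fin bb → ℝ := fun t => lam t - (if t = (jb, ib) then 1 else 0)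
  have hlam : ∀ (g : B × Fin bb → ℝ), ∑ t, lam t * g t = g (jb, ib) + ∑ t, eta t * g t := by
    intro g
    simp only [eta, sub_mul, Finset.sum_sub_distrib]
    rw [show ∑ t, (if t = (jb, ib) then (1 : ℝ) else 0) * g t = g (jb, ib) by simp]
    ring
  have e2 : ∀ j, ∑ i, eta (j, i) = 0 := by
    intro j
    simp only [eta, Finset.sum_sub_distrib, Prod.mk.injEq]
    by_cases h : j = jb
    · subst h
      simp only [true_and]
      rw [Finset.sum_ite_eq' Finset.univ ib]
      simp
      linarith
    · simp only [h, false_and, if_false, Finset.sum_const_zero, sub_zero]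
      exact hjb0 j h
  have e1' : ∀ r i, i ≠ ib → ∑ j, eta (j, i) * rv (A r j) = 0 := by
    intro r i hi
    rw [← hoth r i hi]
    apply Finset.sum_congr rfl
    intro j _
    simp [eta, hi]
  have e1 : ∀ r i, ∑ j, eta (j, i) * rv (A r j) = 0 := by
    intro r i
    by_cases hi : i = ib
    · subst hi
      have h1 : ∑ i', ∑ j, eta (j, i') * rv (A r j) = 0 := by
        rw [Finset.sum_comm]
        apply Finset.sum_eq_zero
        intro j _
        rw [← Finset.sum_mul, e2, zero_mul]
      rw [← Finset.add_sum_erase _ _ (Finset.mem_univ i)] at h1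
      rw [Finset.sum_eq_zero (s := Finset.univ.erase i)] at h1
      · linarith
      · intro i' hi'
        exact e1' r i' (Finset.ne_of_mem_erase hi')
    · exact e1' r i hi
  have ez : ∀ i, ∑ j, eta (j, i) = 0 := by
    intro i
    have := e1 r1 i
    simp only [hr1] at this
    simpa [rv] using this
  have e3 : ∀ e q, ∑ j, eta (j, i0 e) * rv (F q j) + ∑ j, eta (j, i1 e) * rv (G q j) = 0 := by
    intro e q0
    obtain ⟨S, s', hS, -⟩ := hker (fun j => eta (j, i0 e)) (fun r => e1 r _)
    obtain ⟨S', s, -, hs⟩ := hker (fun j => eta (j, i1 e)) (fun r => e1 r _)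
    have hL : ∀ q, rv (rho (τ := τ) A F G (Sum.inr (Sum.inr (Sum.inr (e, q, some true)))) (jb, ib))
        = 0 → S - s = 0 ∨ S - s = 1 := by
      intro q h
      have h1 := hval (Sum.inr (Sum.inr (Sum.inr (e, q, some true))))
      rw [hlam, h, val_L, hS, hs] at h1
      rcases h1 with h1 | h1
      · left; linarith
      · right; linarith
    have hLb : ∀ q, rv (rho (τ := τ) A F G (Sum.inr (Sum.inr (Sum.inr (e, q, some false)))) (jb, ib))
        = 0 → S - s = 0 ∨ S - s = -1 := by
      intro q h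
      have h1 := hval (Sum.inr (Sum.inr (Sum.inr (e, q, some false))))
      rw [hlam, h, val_Lb, hS, hs, ez, ez] at h1
      rcases h1 with h1 | h1
      · left; linarith
      · right; linarith
    have hD : S - s = 0 := by
      obtain ⟨⟨qa, ha⟩, ⟨qb, hb⟩, ⟨qc, hc⟩, ⟨qd, hd⟩⟩ := hver jb
      by_cases h6 : ib.val = e.val
      · have h7 : ¬ (ib.val = e.val + 1) := by omega
        have g1 := hL qb (by simp [rho, rv, h6, hb])
        have g2 := hLb qa (by simp [rho, rv, h6, ha])
        rcases g1 with g1 | g1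
        · exact g1
        · rcases g2 with g2 | g2
          · exact g2
          · linarith
      · by_cases h7 : ib.val = e.val + 1
        · have g1 := hL qd (by simp [rho, rv, h7, hd])
          have g2 := hLb qc (by simp [rho, rv, h7, hc])
          rcases g1 with g1 | g1
          · exact g1
          · rcases g2 with g2 | g2
            · exact g2
            · linarith
        · have g1 := hL qd (by simp [rho, rv, h6, h7])
          have g2 := hLb qc (by simp [rho, rv, h6, h7])
          rcases g1 with g1 | g1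
          · exact g1
          · rcases g2 with g2 | g2
            · exact g2
            · linarith
    have g1 := hS q0
    have g2 := hs q0
    linarith
  refine ⟨(jb, ib), fun v => ?_⟩
  rw [hlam, val_zero A F G ⟨r1, hr1⟩ eta e1 e2 e3 v, add_zero]

lemma link_growth (A : R → B → Bool) (F G : Bool × Bool → B → Bool)
    (E : ℕ)
    (hker : ∀ c : B → ℝ, (∀ r, ∑ j, c j * rv (A r j) = 0) → ∃ S s : ℝ,
      (∀ q, ∑ j, c j * rv (F q j) = S) ∧ (∀ q, ∑ j, c j * rv (G q j) = - s) ∧
      2 ^ E * |s| ≤ |S| ∧ (s = 0 → c = 0))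
    (hb : 3 ≤ bb) (c : B × Fin bb → ℤ) (hc : c ≠ 0)
    (hrel : ∀ v : VB R B bb τ, ∑ t, c t * ((rho A F G v t).toNat : ℤ) = 0) :
    (2 : ℝ) ^ (E * (bb - 1)) ≤ ∑ t, |(c t : ℝ)| := by
  have hrel' : ∀ v : VB R B bb τ, ∑ t, (c t : ℝ) * rv (rho A F G v t) = 0 := by
    intro v
    have := hrel v
    have h2 : ((∑ t, c t * ((rho A F G v t).toNat : ℤ) : ℤ) : ℝ) = 0 := by rw [this]; simp
    push_cast at h2
    exact h2
  have hk1 : ∀ i r, ∑ j, (c (j, i) : ℝ) * rv (A r j) = 0 := by
    intro i r
    have := hrel' (Sum.inl (r, i))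
    rwa [val_inl A F G (fun t => (c t : ℝ))] at this
  choose S s hS hs hgr hnz using fun i => hker (fun j => (c (j, i) : ℝ)) (hk1 i)
  have hJ : ∀ j, ∑ i, (c (j, i) : ℝ) = 0 := by
    intro j
    have := hrel' (Sum.inr (Sum.inr (Sum.inl j)))
    rwa [val_J A F G (fun t => (c t : ℝ))] at this
  have hlink : ∀ e : Fin (bb - 2), S (i0 e) = s (i1 e) := by
    intro e
    have := hrel' (Sum.inr (Sum.inr (Sum.inr (e, (true, true), some true))))
    rw [val_L A F G (fun t => (c t : ℝ)), hS, hs] at this
    linarith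
  -- the entry measured by G is an integer
  have hint : ∀ i, s i ≠ 0 → 1 ≤ |s i| := by
    intro i hi
    have h1 : s i = ((- ∑ j, c (j, i) * ((G (true, true) j).toNat : ℤ) : ℤ) : ℝ) := by
      have := hs i (true, true)
      push_cast
      have h2 : ∑ j, (c (j, i) : ℝ) * ((G (true, true) j).toNat : ℝ) = - s i := this
      rw [h2]
      ring
    rw [h1] at hi ⊢
    have h3 : (- ∑ j, c (j, i) * ((G (true, true) j).toNat : ℤ)) ≠ 0 := by exact_mod_cast hi
    rw [← Int.cast_abs]
    exact_mod_cast Int.one_le_abs h3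
  let n0 : Fin bb := ⟨0, by omega⟩
  by_cases h0 : s n0 = 0
  · exfalso
    apply hc
    -- every block but the last vanishes
    have hall : ∀ n : ℕ, ∀ hn : n < bb, n ≤ bb - 2 → s ⟨n, hn⟩ = 0 := by
      intro n
      induction n with
      | zero => intro hn _; exact h0
      | succ n ih =>
        intro hn hle
        have h1 := ih (by omega) (by omega)
        have h2 := hnz _ h1
        have h3 : S ⟨n, by omega⟩ = 0 := by
          rw [← hS ⟨n, by omega⟩ (true, true)]
          apply Finset.sum_eq_zero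
          intro j _
          have := congrFun h2 j
          simp only [Pi.zero_apply] at this
          rw [this, zero_mul]
        have h4 := hlink ⟨n, by omega⟩
        simp only [i0, i1] at h4
        rw [← h4, h3]
    have hz1 : ∀ i : Fin bb, i.val ≤ bb - 2 → ∀ j, (c (j, i) : ℝ) = 0 := by
      intro i hi j
      exact congrFun (hnz i (hall i.val i.isLt hi)) j
    funext ⟨j, i⟩
    by_cases hi : i.val ≤ bb - 2
    · have := hz1 i hi j
      exact_mod_cast this
    · have h1 := hJ j
      rw [Finset.sum_eq_single i] at h1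
      · exact_mod_cast h1
      · intro i' _ hne
        apply hz1
        by_contra hc'
        apply hne
        apply Fin.ext
        omega
      · simp
  · have hall : ∀ n : ℕ, ∀ hn : n < bb, n ≤ bb - 2 → (2 : ℝ) ^ (E * (n + 1)) ≤ |S ⟨n, hn⟩| := by
      intro n
      induction n with
      | zero =>
        intro hn _
        have h1 := hgr n0
        have h2 := hint n0 h0
        calc (2 : ℝ) ^ (E * (0 + 1)) = 2 ^ E * 1 := by simp
          _ ≤ 2 ^ E * |s n0| := mul_le_mul_of_nonneg_left h2 (by positivity)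
          _ ≤ |S n0| := h1
      | succ n ih =>
        intro hn hle
        have h1 := ih (by omega) (by omega)
        have h4 := hlink ⟨n, by omega⟩
        simp only [i0, i1] at h4
        rw [h4] at h1
        calc (2 : ℝ) ^ (E * (n + 1 + 1)) = 2 ^ E * 2 ^ (E * (n + 1)) := by rw [← pow_add]; ring_nf
          _ ≤ 2 ^ E * |s ⟨n + 1, hn⟩| := mul_le_mul_of_nonneg_left h1 (by positivity)
          _ ≤ |S ⟨n + 1, hn⟩| := hgr _
    have h1 := hall (bb - 2) (by omega) le_rfl
    have h2 : bb - 2 + 1 = bb - 1 := by omega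
    rw [h2] at h1
    refine h1.trans ?_
    rw [← hS _ (true, true)]
    refine (Finset.abs_sum_le_sum_abs _ _).trans ?_
    rw [Fintype.sum_prod_type_right (f := fun t => |(c t : ℝ)|)]
    refine le_trans ?_ (Finset.single_le_sum (f := fun i => ∑ j, |(c (j, i) : ℝ)|)
      (fun i _ => Finset.sum_nonneg (fun j _ => abs_nonneg _)) (Finset.mem_univ ⟨bb - 2, by omega⟩))
    apply Finset.sum_le_sum
    intro j _
    rw [abs_mul]
    have : |rv (F (true, true) j)| ≤ 1 := by
      cases F (true, true) j <;> simp [rv]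
    have h3 := abs_nonneg ((c (j, ⟨bb - 2, by omega⟩) : ℝ))
    nlinarith

/-- the weights of the blocks -/
def phi (g h : ℤ) (i : Fin bb) : ℤ :=
  if i.val ≤ bb - 2 then h ^ i.val * g ^ (bb - 2 - i.val)
    else - ∑ n ∈ Finset.range (bb - 1), h ^ n * g ^ (bb - 2 - n)

lemma sum_phi (hb : 3 ≤ bb) (g h : ℤ) : ∑ i : Fin bb, phi g h i = 0 := by
  obtain ⟨n, rfl⟩ : ∃ n, bb = n + 1 := ⟨bb - 1, by omega⟩
  rw [Fin.sum_univ_castSucc]
  have h1 : ∀ i : Fin n, phi g h (Fin.castSucc i) = h ^ i.val * g ^ (n + 1 - 2 - i.val) := by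
    intro i
    unfold phi
    rw [if_pos]
    · rfl
    · simp
      omega
  have h2 : phi g h (Fin.last n) = - ∑ k ∈ Finset.range n, h ^ k * g ^ (n + 1 - 2 - k) := by
    unfold phi
    rw [if_neg]
    · rfl
    · simp
      omega
  rw [Finset.sum_congr rfl (fun i _ => h1 i), h2,
    Fin.sum_univ_eq_sum_range (fun k => h ^ k * g ^ (n + 1 - 2 - k))]
  ring

lemma phi_link (g h : ℤ) (e : Fin (bb - 2)) :
    phi g h (i0 e) * h = phi g h (i1 e) * g := by
  unfold phi i0 i1
  have h1 : e.val < bb - 2 := e.isLt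
  simp only
  rw [if_pos (by omega), if_pos (by omega)]
  have h2 : bb - 2 - e.val = (bb - 2 - (e.val + 1)) + 1 := by omega
  rw [h2, pow_succ, pow_succ]
  ring

lemma blocks (A : R → B → Bool) (F G : Bool × Bool → B → Bool) (hone : ∃ r, ∀ j, A r j = true)
    (E : ℕ)
    (hver : ∀ j, (∃ q, F q j = true) ∧ (∃ q, F q j = false) ∧ (∃ q, G q j = true) ∧
      (∃ q, G q j = false))
    (hker : ∀ c : B → ℝ, (∀ r, ∑ j, c j * rv (A r j) = 0) → ∃ S s : ℝ,
      (∀ q, ∑ j, c j * rv (F q j) = S) ∧ (∀ q, ∑ j, c j * rv (G q j) = - s) ∧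
      2 ^ E * |s| ≤ |S| ∧ (s = 0 → c = 0))
    (c0 : B → ℤ) (hc0 : c0 ≠ 0) (hc0k : ∀ r, ∑ j, c0 j * ((A r j).toNat : ℤ) = 0)
    (hb : 3 ≤ bb) (hτ : bb ≤ 2 ^ τ) :
    ∃ f : (VB R B bb τ → Bool) → Bool, Monotone f ∧ (∃ k, 1 ≤ k ∧ KSummable k f) ∧
      ∀ k, 1 ≤ k → KSummable k f → 2 ^ (E * (bb - 1)) ≤ 2 * k := by
  classical
  have hτ1 : 1 ≤ τ := by
    by_contra h
    have : τ = 0 := by omega
    subst this
    simp at hτ
    omega
  obtain ⟨r1, hr1⟩ := hone
  -- data of the kernel vector
  have hc0R : ∀ r, ∑ j, (c0 j : ℝ) * rv (A r j) = 0 := by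
    intro r
    have h2 : ((∑ j, c0 j * ((A r j).toNat : ℤ) : ℤ) : ℝ) = 0 := by rw [hc0k r]; simp
    push_cast at h2
    exact h2
  obtain ⟨S, s, hS, hs, -, hnz⟩ := hker (fun j => (c0 j : ℝ)) hc0R
  let h : ℤ := ∑ j, c0 j * ((F (true, true) j).toNat : ℤ)
  let g : ℤ := - ∑ j, c0 j * ((G (true, true) j).toNat : ℤ)
  have hh : (h : ℝ) = S := by
    rw [← hS (true, true)]
    simp only [h]
    push_cast
    rfl
  have hg : (g : ℝ) = s := by
    have := hs (true, true)
    simp only [g]
    push_cast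
    have h2 : ∑ j, (c0 j : ℝ) * ((G (true, true) j).toNat : ℝ) = - s := this
    rw [h2]
    ring
  have hg0 : g ≠ 0 := by
    intro h0
    rw [h0] at hg
    have := hnz (by rw [← hg]; simp)
    apply hc0
    funext j
    have := congrFun this j
    simpa using this
  let c : B × Fin bb → ℤ := fun t => c0 t.1 * phi g h t.2
  have hc : c ≠ 0 := by
    intro h0
    apply hc0
    funext j
    have h1 := congrFun h0 (j, ⟨0, by omega⟩)
    simp only [c, phi, Pi.zero_apply, Nat.zero_le, if_true, pow_zero, one_mul, Nat.sub_zero] at h1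
    rcases mul_eq_zero.1 h1 with h1 | h1
    · exact h1
    · exact absurd h1 (pow_ne_zero _ hg0)
  have hcsum : ∑ t, c t = 0 := by
    rw [Fintype.sum_prod_type]
    apply Finset.sum_eq_zero
    intro j _
    simp only [c]
    rw [← Finset.mul_sum, sum_phi hb, mul_zero]
  have hcrel : ∀ v : VB R B bb τ, ∑ t, c t * ((rho A F G v t).toNat : ℤ) = 0 := by
    intro v
    have h1 := val_zero (τ := τ) A F G ⟨r1, hr1⟩ (fun t => (c t : ℝ)) ?_ ?_ ?_ v
    · have h2 : ((∑ t, c t * ((rho A F G v t).toNat : ℤ) : ℤ) : ℝ) = 0 := by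
        push_cast
        exact h1
      exact_mod_cast h2
    · intro r i
      simp only [c]
      push_cast
      have : ∑ j, (c0 j : ℝ) * (phi g h i : ℝ) * rv (A r j)
          = (phi g h i : ℝ) * ∑ j, (c0 j : ℝ) * rv (A r j) := by
        rw [Finset.mul_sum]
        exact Finset.sum_congr rfl (fun j _ => by ring)
      rw [this, hc0R, mul_zero]
    · intro j
      simp only [c]
      push_cast
      rw [← Finset.mul_sum]
      have : ∑ i : Fin bb, (phi g h i : ℝ) = 0 := by
        have := sum_phi hb g h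
        exact_mod_cast this
      rw [this, mul_zero]
    · intro e q
      simp only [c]
      push_cast
      have e1 : ∑ j, (c0 j : ℝ) * (phi g h (i0 e) : ℝ) * rv (F q j)
          = (phi g h (i0 e) : ℝ) * ∑ j, (c0 j : ℝ) * rv (F q j) := by
        rw [Finset.mul_sum]
        exact Finset.sum_congr rfl (fun j _ => by ring)
      have e2 : ∑ j, (c0 j : ℝ) * (phi g h (i1 e) : ℝ) * rv (G q j)
          = (phi g h (i1 e) : ℝ) * ∑ j, (c0 j : ℝ) * rv (G q j) := by
        rw [Finset.mul_sum]
        exact Finset.sum_congr rfl (fun j _ => by ring)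
      rw [e1, e2, hS q, hs q, ← hh, ← hg]
      have h3 := phi_link g h e
      have h4 : ((phi g h (i0 e) : ℤ) : ℝ) * (h : ℝ) = ((phi g h (i1 e) : ℤ) : ℝ) * (g : ℝ) := by
        exact_mod_cast h3
      linarith
  obtain ⟨f, hf, hf1, hf2⟩ := closed_gadget (rho (bb := bb) (τ := τ) A F G) (wei τ)
    (by
      rintro (v | v)
      · exact hτ1
      · exact le_rfl)
    (τ * Fintype.card R + 1 + 4 * (bb - 2)) (fun t => sum_wei A F G t)
    (by
      rintro ⟨j, i⟩ ⟨j', i'⟩ h0
      have h1 := h0 (Sum.inr (Sum.inr (Sum.inl j)))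
      have h2 := h0 (Sum.inl (r1, i))
      simp only [rho, hr1] at h1 h2
      simp at h1 h2
      rw [← h1, h2])
    (fun lam h1 h2 => closure A F G ⟨r1, hr1⟩ hver
      (fun c hc => by
        obtain ⟨S, s, a1, a2, -⟩ := hker c hc
        exact ⟨S, s, a1, a2⟩) hτ lam h1 h2)
    (fun t => decide (0 < c t))
  refine ⟨f, hf, ?_, ?_⟩
  · apply hf2 c hc
    · intro t ht
      simpa using ht
    · intro t ht
      simp
      omega
    · exact hcsum
    · exact hcrel
  · intro k hk hs
    obtain ⟨c', h1, h2, h3⟩ := hf1 k hk hs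
    have h4 := link_growth A F G E hker hb c' h1 h2
    have h5 : ∑ t, |(c' t : ℝ)| = 2 * k := by
      have : ((∑ t, |c' t| : ℤ) : ℝ) = 2 * k := by rw [h3]; push_cast; rfl
      rw [← this]
      push_cast
      rfl
    rw [h5] at h4
    exact_mod_cast h4

end Blocks

section Hadamard
open Matrix

lemma hadamard {ι : Type} [Fintype ι] [DecidableEq ι] (M : Matrix ι ι ℝ)
    (hM : ∀ i j, |M i j| ≤ 1) : M.det ^ 2 ≤ (Fintype.card ι : ℝ) ^ (Fintype.card ι) := by
  rcases isEmpty_or_nonempty ι with h | h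
  · simp [Matrix.det_isEmpty]
  have hN : (0 : ℝ) < Fintype.card ι := by exact_mod_cast Fintype.card_pos
  have hps : (Mᴴ * M).PosSemidef := posSemidef_conjTranspose_mul_self M
  have hdet : (Mᴴ * M).det = M.det ^ 2 := by
    rw [Matrix.det_mul, Matrix.det_conjTranspose]
    simp [sq]
  have h1 : (Mᴴ * M).det = ∏ i, hps.1.eigenvalues i := by
    have := hps.1.det_eq_prod_eigenvalues
    simpa using this
  have h2 : (Mᴴ * M).trace = ∑ i, hps.1.eigenvalues i := by
    have := hps.1.trace_eq_sum_eigenvalues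
    simpa using this
  have h3 : ∀ i, 0 ≤ hps.1.eigenvalues i := fun i => hps.eigenvalues_nonneg i
  have h4 : (Mᴴ * M).trace ≤ (Fintype.card ι : ℝ) * (Fintype.card ι : ℝ) := by
    rw [Matrix.trace]
    have h5 : ∀ i, (Mᴴ * M).diag i ≤ (Fintype.card ι : ℝ) := by
      intro i
      rw [Matrix.diag_apply, Matrix.mul_apply]
      calc ∑ j, Mᴴ i j * M j i ≤ ∑ j : ι, (1 : ℝ) := by
            apply Finset.sum_le_sum
            intro j _
            rw [Matrix.conjTranspose_apply]
            simp only [star_trivial]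
            have := hM j i
            rw [abs_le] at this
            nlinarith
        _ = Fintype.card ι := by simp
    calc ∑ i, (Mᴴ * M).diag i ≤ ∑ i : ι, (Fintype.card ι : ℝ) := Finset.sum_le_sum (fun i _ => h5 i)
      _ = _ := by simp
  have h5 := Real.geom_mean_le_arith_mean_weighted Finset.univ
    (fun _ : ι => 1 / (Fintype.card ι : ℝ)) hps.1.eigenvalues
    (fun i _ => by positivity) (by simp [hN.ne']) (fun i _ => h3 i)
  have h6 : ∑ i, 1 / (Fintype.card ι : ℝ) * hps.1.eigenvalues i ≤ Fintype.card ι := by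
    rw [← Finset.mul_sum, ← h2, one_div, inv_mul_le_iff₀ hN]
    exact h4
  have h7 : ∏ i, hps.1.eigenvalues i
      = (∏ i, hps.1.eigenvalues i ^ (1 / (Fintype.card ι : ℝ))) ^ (Fintype.card ι) := by
    rw [← Finset.prod_pow]
    apply Finset.prod_congr rfl
    intro i _
    rw [← Real.rpow_natCast, ← Real.rpow_mul (h3 i)]
    rw [one_div, inv_mul_cancel₀ hN.ne', Real.rpow_one]
  rw [← hdet, h1, h7]
  apply pow_le_pow_left₀
  · exact Finset.prod_nonneg (fun i _ => Real.rpow_nonneg (h3 i) _)
  · exact h5.trans h6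

end Hadamard

section Upper
variable {n : ℕ}

noncomputable def pt (x : Fin n → Bool) : Fin n → ℝ := fun i => ((x i).toNat : ℝ)

lemma pt_injective : Function.Injective (pt (n := n)) := by
  intro x y h
  funext i
  have := congrFun h i
  unfold pt at this
  have h2 : (x i).toNat = (y i).toNat := by exact_mod_cast this
  cases hx : x i <;> cases hy : y i <;> simp_all

/-- sign of a vector -/
def ep (f : (Fin n → Bool) → Bool) (x : Fin n → Bool) : ℤ := if f x then 1 else -1

def UU (f : (Fin n → Bool) → Bool) (x : Fin n → Bool) : Option (Fin n) → ℤ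
  | none => ep f x
  | some i => ep f x * (x i).toNat

def RRel (f : (Fin n → Bool) → Bool) (μ : (Fin n → Bool) → ℝ) : Prop :=
  ∀ o, ∑ x, μ x * (UU f x o : ℝ) = 0

lemma exists_rel (f : (Fin n → Bool) → Bool) (hf : ¬ IsThreshold f) :
    ∃ μ : (Fin n → Bool) → ℝ, (∀ x, 0 ≤ μ x) ∧ μ ≠ 0 ∧ RRel f μ := by
  classical
  let A : Bool → Finset (Fin n → ℝ) := fun b => (Finset.univ.filter (fun x => f x = b)).image pt
  by_cases hd : Disjoint (convexHull ℝ (A false : Set (Fin n → ℝ))) (convexHull ℝ (A true : Set (Fin n → ℝ)))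
  · exfalso
    obtain ⟨φ, u, v, h1, h2, h3⟩ := geometric_hahn_banach_compact_closed
      (convex_convexHull ℝ (A false : Set (Fin n → ℝ)))
      ((A false).finite_toSet.isCompact_convexHull (𝕜 := ℝ))
      (convex_convexHull ℝ (A true : Set (Fin n → ℝ)))
      ((A true).finite_toSet.isClosed_convexHull (𝕜 := ℝ)) hd
    apply hf
    refine ⟨fun i => φ (Pi.single i 1), v, ?_⟩
    have hφ : ∀ x, φ (pt x) = ∑ i, φ (Pi.single i 1) * ((x i).toNat : ℝ) := by
      intro x
      have e : pt x = ∑ i, ((x i).toNat : ℝ) • (Pi.single i 1 : Fin n → ℝ) := by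
        funext j
        simp [pt, Pi.single_apply]
      rw [e, map_sum]
      apply Finset.sum_congr rfl
      intro i _
      rw [map_smul, smul_eq_mul, mul_comm]
    intro x
    rw [← hφ]
    constructor
    · intro hx
      apply (h3 _ _).le
      apply subset_convexHull
      exact_mod_cast Finset.mem_image.2 ⟨x, Finset.mem_filter.2 ⟨Finset.mem_univ _, hx⟩, rfl⟩
    · intro hx
      by_contra hc
      have : φ (pt x) < u := by
        apply h1
        apply subset_convexHull
        exact_mod_cast Finset.mem_image.2 ⟨x, Finset.mem_filter.2 ⟨Finset.mem_univ _,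
          by simpa using hc⟩, rfl⟩
      linarith
  · rw [Set.not_disjoint_iff] at hd
    obtain ⟨z, hz0, hz1⟩ := hd
    have key : ∀ b, z ∈ convexHull ℝ (A b : Set (Fin n → ℝ)) → ∃ w : (Fin n → Bool) → ℝ,
        (∀ x, 0 ≤ w x) ∧ (∀ x, f x ≠ b → w x = 0) ∧ ∑ x, w x = 1 ∧
        ∀ i, ∑ x, w x * ((x i).toNat : ℝ) = z i := by
      intro b hz
      rw [Finset.mem_convexHull'] at hz
      obtain ⟨w, hw0, hw1, hw2⟩ := hz
      refine ⟨fun x => if f x = b then w (pt x) else 0, ?_, ?_, ?_, ?_⟩
      · intro x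
        beta_reduce
        split_ifs with h
        · exact hw0 _ (Finset.mem_image.2 ⟨x, Finset.mem_filter.2 ⟨Finset.mem_univ _, h⟩, rfl⟩)
        · exact le_refl _
      · intro x hx
        simp [hx]
      · rw [← hw1, Finset.sum_image (fun x _ y _ h => pt_injective h), Finset.sum_filter]
      · intro i
        have := congrFun hw2 i
        rw [Finset.sum_image (fun x _ y _ h => pt_injective h), Finset.sum_filter] at this
        rw [← this, Finset.sum_apply]
        apply Finset.sum_congr rfl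
        intro x _
        by_cases h : f x = b
        · simp [pt, h]
        · simp [h]
    obtain ⟨a, ha0, ha1, ha2, ha3⟩ := key false hz0
    obtain ⟨b, hb0, hb1, hb2, hb3⟩ := key true hz1
    refine ⟨fun x => a x + b x, fun x => add_nonneg (ha0 x) (hb0 x), ?_, ?_⟩
    · intro h
      have h1 : ∑ x, (a x + b x) = 0 := by
        apply Finset.sum_eq_zero
        intro x _
        exact congrFun h x
      rw [Finset.sum_add_distrib] at h1
      linarith
    · have hu : ∀ x, (a x + b x) * (ep f x : ℝ) = b x - a x := by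
        intro x
        unfold ep
        by_cases h : f x = true
        · rw [ha1 x (by simp [h])]
          simp [h]
        · have h' : f x = false := by simpa using h
          rw [hb1 x (by simp [h'])]
          simp [h']
      intro o
      rcases o with _ | i
      · simp only [UU]
        simp only [hu]
        rw [Finset.sum_sub_distrib]
        linarith
      · simp only [UU]
        push_cast
        simp only [← mul_assoc, hu, sub_mul]
        rw [Finset.sum_sub_distrib, ha3, hb3, sub_self]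

lemma support_rigid (f : (Fin n → Bool) → Bool) {μ : (Fin n → Bool) → ℝ} (h0 : ∀ x, 0 ≤ μ x)
    (hR : RRel f μ)
    (hmin : ∀ μ' : (Fin n → Bool) → ℝ, (∀ x, 0 ≤ μ' x) → μ' ≠ 0 → RRel f μ' →
      (Finset.univ.filter (fun x => μ x ≠ 0)).card ≤ (Finset.univ.filter (fun x => μ' x ≠ 0)).card)
    {ν : (Fin n → Bool) → ℝ} (hν : RRel f ν) (hs : ∀ x, μ x = 0 → ν x = 0) {x0 : Fin n → Bool}
    (hx0 : μ x0 ≠ 0) (hν0 : ν x0 = 0) : ν = 0 := by
  classical
  -- it is enough to treat vectors with a positive entry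
  have main : ∀ ν : (Fin n → Bool) → ℝ, RRel f ν → (∀ x, μ x = 0 → ν x = 0) → ν x0 = 0 →
      ∀ x, ν x ≤ 0 := by
    intro ν hν hs hν0
    by_contra hc
    push Not at hc
    obtain ⟨x1, hx1⟩ := hc
    have hne : (Finset.univ.filter (fun x => 0 < ν x)).Nonempty :=
      ⟨x1, Finset.mem_filter.2 ⟨Finset.mem_univ _, hx1⟩⟩
    obtain ⟨x2, hx2, hmin2⟩ := Finset.exists_min_image _ (fun x => μ x / ν x) hne
    have hx2' : 0 < ν x2 := (Finset.mem_filter.1 hx2).2
    set t := μ x2 / ν x2 with ht
    have ht0 : 0 ≤ t := div_nonneg (h0 _) hx2'.le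
    have hz2 : μ x2 - t * ν x2 = 0 := by
      rw [ht]
      field_simp
      ring
    have h1 : ∀ x, 0 ≤ μ x - t * ν x := by
      intro x
      by_cases hx : 0 < ν x
      · have := hmin2 x (Finset.mem_filter.2 ⟨Finset.mem_univ _, hx⟩)
        have h2 : t * ν x ≤ μ x := by
          rw [← le_div_iff₀ hx]
          exact this
        linarith
      · push Not at hx
        have := h0 x
        nlinarith
    have h2 : (fun x => μ x - t * ν x) ≠ 0 := by
      intro h
      have := congrFun h x0
      simp only [hν0, mul_zero, sub_zero, Pi.zero_apply] at this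
      exact hx0 this
    have h3 : RRel f (fun x => μ x - t * ν x) := by
      intro o
      have e1 := hR o
      have e2 := hν o
      have : ∑ x, (μ x - t * ν x) * (UU f x o : ℝ)
          = ∑ x, μ x * (UU f x o : ℝ) - t * ∑ x, ν x * (UU f x o : ℝ) := by
        rw [Finset.mul_sum, ← Finset.sum_sub_distrib]
        exact Finset.sum_congr rfl (fun x _ => by ring)
      rw [this, e1, e2]
      simp
    have h4 := hmin _ h1 h2 h3
    have h5 : Finset.univ.filter (fun x => μ x - t * ν x ≠ 0) ⊂ Finset.univ.filter (fun x => μ x ≠ 0) := by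
      rw [Finset.ssubset_iff_of_subset]
      · refine ⟨x2, ?_, ?_⟩
        · simp only [Finset.mem_filter, Finset.mem_univ, true_and]
          intro h
          rw [hs x2 h] at hx2'
          exact lt_irrefl _ hx2'
        · simp [hz2]
      · intro x hx
        simp only [Finset.mem_filter, Finset.mem_univ, true_and] at hx ⊢
        intro h
        apply hx
        rw [h, hs x h]
        simp
    exact absurd h4 (not_le.2 (Finset.card_lt_card h5))
  funext x
  apply le_antisymm (main ν hν hs hν0 x)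
  have hneg : RRel f (fun x => - ν x) := by
    intro o
    have := hν o
    simp only [neg_mul, Finset.sum_neg_distrib, this, neg_zero]
  have := main (fun x => - ν x) hneg (fun x hx => by rw [hs x hx, neg_zero])
    (by simp [hν0]) x
  simpa using this

open Classical in
noncomputable def ext0 (μ : (Fin n → Bool) → ℝ) (g : {x // μ x ≠ 0} → ℝ) (x : Fin n → Bool) : ℝ :=
  if h : μ x ≠ 0 then g ⟨x, h⟩ else 0

open Classical in
lemma ext0_sum (μ : (Fin n → Bool) → ℝ) (g : {x // μ x ≠ 0} → ℝ) (F : (Fin n → Bool) → ℝ) :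
    ∑ x, ext0 μ g x * F x = ∑ x : {x // μ x ≠ 0}, g x * F x.1 := by
  have h1 : ∑ x, ext0 μ g x * F x
      = ∑ x ∈ Finset.univ.filter (fun x => μ x ≠ 0), ext0 μ g x * F x := by
    symm
    apply Finset.sum_subset (Finset.subset_univ _)
    intro x _ hx
    simp only [Finset.mem_filter, Finset.mem_univ, true_and] at hx
    unfold ext0
    rw [dif_neg hx, zero_mul]
  rw [h1, Finset.sum_subtype (p := fun x => μ x ≠ 0) _ (by intro x; simp)]
  apply Finset.sum_congr rfl
  intro x _
  unfold ext0
  rw [dif_pos x.2]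

lemma abs_UU_le (f : (Fin n → Bool) → Bool) (x : Fin n → Bool) (o : Option (Fin n)) :
    |UU f x o| ≤ 1 := by
  have h : |ep f x| = 1 := by
    unfold ep
    split_ifs <;> simp
  rcases o with _ | i
  · simp only [UU]
    rw [h]
  · simp only [UU]
    rw [abs_mul, h, one_mul]
    cases x i <;> simp

lemma exists_int_rel (f : (Fin n → Bool) → Bool) (hf : ¬ IsThreshold f) :
    ∃ t : (Fin n → Bool) → ℕ, t ≠ 0 ∧ (∀ o, ∑ x, (t x : ℤ) * UU f x o = 0) ∧
      (∑ x, t x) ^ 2 ≤ (n + 2) ^ (n + 4) := by
  classical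
  obtain ⟨μ1, hμ1⟩ := exists_rel f hf
  have hex : ∃ c : ℕ, ∃ μ : (Fin n → Bool) → ℝ, ((∀ x, 0 ≤ μ x) ∧ μ ≠ 0 ∧ RRel f μ) ∧
      (Finset.univ.filter (fun x => μ x ≠ 0)).card = c := ⟨_, μ1, hμ1, rfl⟩
  obtain ⟨μ, ⟨h0, hne, hR⟩, hcard⟩ := Nat.find_spec hex
  have hmin : ∀ μ' : (Fin n → Bool) → ℝ, (∀ x, 0 ≤ μ' x) → μ' ≠ 0 → RRel f μ' →
      (Finset.univ.filter (fun x => μ x ≠ 0)).card
        ≤ (Finset.univ.filter (fun x => μ' x ≠ 0)).card := by
    intro μ' h1 h2 h3
    rw [hcard]
    exact Nat.find_min' hex ⟨μ', ⟨h1, h2, h3⟩, rfl⟩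
  have rigid := fun (ν : (Fin n → Bool) → ℝ) (hν : RRel f ν) (hs : ∀ x, μ x = 0 → ν x = 0)
    (x0 : Fin n → Bool) (hx0 : μ x0 ≠ 0) (hν0 : ν x0 = 0) =>
    support_rigid f h0 hR hmin hν hs hx0 hν0
  clear hmin hcard hex hμ1
  obtain ⟨x0, hx0⟩ : ∃ x0, μ x0 ≠ 0 := by
    by_contra hc
    push Not at hc
    exact hne (funext hc)
  let S := {x // μ x ≠ 0}
  have ext_rel : ∀ g : S → ℝ, (∀ o, ∑ x : S, g x * (UU f x.1 o : ℝ) = 0) → RRel f (ext0 μ g) := by
    intro g hg o
    rw [ext0_sum]
    exact hg o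
  have ext_supp : ∀ g : S → ℝ, ∀ x, μ x = 0 → ext0 μ g x = 0 := by
    intro g x hx
    unfold ext0
    rw [dif_neg (by simpa using hx)]
  have ext_apply : ∀ (g : S → ℝ) (x : S), ext0 μ g x.1 = g x := by
    intro g x
    unfold ext0
    rw [dif_pos x.2]
  -- the number of elements of the support
  have hS : Fintype.card S ≤ n + 2 := by
    let L : (S → ℝ) →ₗ[ℝ] (Option (Fin n) → ℝ) × ℝ :=
      LinearMap.prod (LinearMap.pi (fun o => ∑ x : S, (UU f x.1 o : ℝ) • LinearMap.proj x))
        (LinearMap.proj ⟨x0, hx0⟩)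
    have hL : Function.Injective L := by
      rw [← LinearMap.ker_eq_bot, LinearMap.ker_eq_bot']
      intro g hg
      have h1 := congrArg Prod.fst hg
      have h2 : g ⟨x0, hx0⟩ = 0 := congrArg Prod.snd hg
      have h3 : ∀ o, ∑ x : S, g x * (UU f x.1 o : ℝ) = 0 := by
        intro o
        have h4 : (∑ x : S, (UU f x.1 o : ℝ) • LinearMap.proj (R := ℝ) (φ := fun _ : S => ℝ) x) g = 0 :=
          congrFun h1 o
        rw [LinearMap.sum_apply] at h4
        refine Eq.trans ?_ h4
        apply Finset.sum_congr rfl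
        intro x _
        simp [mul_comm]
      have h5 := rigid _ (ext_rel g h3) (ext_supp g) x0 hx0 (by
        rw [ext_apply g ⟨x0, hx0⟩]; exact h2)
      funext x
      rw [← ext_apply g x, h5]
      rfl
    have := LinearMap.finrank_le_finrank_of_injective hL
    simp at this
    simpa [S] using this
  let v : Option (Fin n) → (S → ℝ) := fun o x => (UU f x.1 o : ℝ)
  obtain ⟨κ, a, ha, hspan, hli⟩ := exists_linearIndependent' ℝ v
  have : Finite κ := Finite.of_injective a ha
  have : Fintype κ := Fintype.ofFinite κ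
  have hκ : Fintype.card κ ≤ n + 1 := by
    have := Fintype.card_le_of_injective a ha
    simpa using this
  have orth_span : ∀ g : S → ℝ, (∀ k : κ, ∑ x : S, g x * v (a k) x = 0) →
      ∀ y ∈ Submodule.span ℝ (Set.range (v ∘ a)), ∑ x : S, g x * y x = 0 := by
    intro g hg y hy
    induction hy using Submodule.span_induction with
    | mem y hy =>
      obtain ⟨k, rfl⟩ := hy
      exact hg k
    | zero => simp
    | add y z _ _ h1 h2 =>
      simp only [Pi.add_apply, mul_add, Finset.sum_add_distrib, h1, h2, add_zero]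
    | smul r y _ h1 =>
      have : ∑ x : S, g x * (r • y) x = r * ∑ x : S, g x * y x := by
        rw [Finset.mul_sum]
        apply Finset.sum_congr rfl
        intro x _
        simp only [Pi.smul_apply, smul_eq_mul]
        ring
      rw [this, h1, mul_zero]
  have hμS : ∀ o, ∑ x : S, μ x.1 * v o x = 0 := by
    intro o
    have h1 := hR o
    have h2 := ext0_sum μ (fun x => μ x.1) (fun x => (UU f x o : ℝ))
    have h3 : ext0 μ (fun x => μ x.1) = μ := by
      funext x
      unfold ext0
      split_ifs with h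
      · rfl
      · push Not at h
        exact h.symm
    rw [h3, h1] at h2
    exact h2.symm
  -- the square matrix
  let rowR : Option κ → (S → ℝ) := fun o => Option.casesOn' o (Pi.single ⟨x0, hx0⟩ 1) (v ∘ a)
  have hrow : LinearIndependent ℝ rowR := by
    apply LinearIndependent.option hli
    intro hmem
    have h3 := orth_span (fun x => μ x.1) (fun k => hμS (a k)) _ hmem
    rw [Finset.sum_eq_single ⟨x0, hx0⟩ (by
      intro b _ hb
      rw [Pi.single_eq_of_ne hb, mul_zero]) (by simp)] at h3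
    rw [Pi.single_eq_same, mul_one] at h3
    exact hx0 h3
  have htriv : ∀ g : S → ℝ, (∀ o, ∑ x : S, g x * rowR o x = 0) → g = 0 := by
    intro g hg
    have h1 : ∀ k : κ, ∑ x : S, g x * v (a k) x = 0 := fun k => hg (some k)
    have h2 : g ⟨x0, hx0⟩ = 0 := by
      have h3 := hg none
      simp only [rowR, Option.casesOn'] at h3
      rw [Finset.sum_eq_single ⟨x0, hx0⟩ (by
        intro b _ hb
        rw [Pi.single_eq_of_ne hb, mul_zero]) (by simp)] at h3
      rw [Pi.single_eq_same, mul_one] at h3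
      exact h3
    have h3 : ∀ o, ∑ x : S, g x * (UU f x.1 o : ℝ) = 0 := by
      intro o
      exact orth_span g h1 (v o) (by rw [hspan]; exact Submodule.subset_span ⟨o, rfl⟩)
    have h5 := rigid _ (ext_rel g h3) (ext_supp g) x0 hx0 (by
      rw [ext_apply g ⟨x0, hx0⟩]; exact h2)
    funext x
    rw [← ext_apply g x, h5]
    rfl
  have hcardeq : Fintype.card (Option κ) = Fintype.card S := by
    apply le_antisymm
    · have := hrow.fintype_card_le_finrank
      rwa [Module.finrank_fintype_fun_eq_card] at this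
    · let L : (S → ℝ) →ₗ[ℝ] (Option κ → ℝ) :=
        LinearMap.pi (fun o => ∑ x : S, (rowR o x) • LinearMap.proj x)
      have hL : Function.Injective L := by
        rw [← LinearMap.ker_eq_bot, LinearMap.ker_eq_bot']
        intro g hg
        apply htriv
        intro o
        have h4 : (∑ x : S, (rowR o x) • LinearMap.proj (R := ℝ) (φ := fun _ : S => ℝ) x) g = 0 :=
          congrFun hg o
        rw [LinearMap.sum_apply] at h4
        refine Eq.trans ?_ h4
        apply Finset.sum_congr rfl
        intro x _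
        simp [mul_comm]
      have := LinearMap.finrank_le_finrank_of_injective hL
      rwa [Module.finrank_fintype_fun_eq_card, Module.finrank_fintype_fun_eq_card] at this
  let eqv : Option κ ≃ S := Fintype.equivOfCardEq hcardeq
  let rowZ : Option κ → S → ℤ := fun o x =>
    Option.casesOn' o (if x = ⟨x0, hx0⟩ then 1 else 0) (fun k => UU f x.1 (a k))
  have hrowZ : ∀ o x, ((rowZ o x : ℤ) : ℝ) = rowR o x := by
    intro o x
    rcases o with _ | k
    · simp only [rowZ, rowR, Option.casesOn']
      by_cases h : x = ⟨x0, hx0⟩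
      · subst h
        simp
      · rw [if_neg h, Pi.single_eq_of_ne h]
        simp
    · rfl
  have hrowZ1 : ∀ o x, |rowZ o x| ≤ 1 := by
    intro o x
    rcases o with _ | k
    · simp only [rowZ, Option.casesOn']
      split_ifs <;> simp
    · exact abs_UU_le f x.1 (a k)
  let Q : Matrix S S ℤ := Matrix.of (fun x y => rowZ (eqv.symm x) y)
  have hQdet : Q.det ≠ 0 := by
    intro h0
    have h1 : (Q.map (Int.cast : ℤ → ℝ)).det = 0 := by
      have := Int.cast_det (R := ℝ) Q
      rw [← this, h0]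
      simp
    obtain ⟨g, hg0, hg1⟩ := Matrix.exists_mulVec_eq_zero_iff.2 h1
    apply hg0
    apply htriv
    intro o
    have h2 := congrFun hg1 (eqv o)
    simp only [Matrix.mulVec, dotProduct, Matrix.map_apply, Pi.zero_apply] at h2
    refine Eq.trans ?_ h2
    apply Finset.sum_congr rfl
    intro x _
    simp only [Q, Matrix.of_apply, Equiv.symm_apply_apply]
    rw [hrowZ, mul_comm]
  let xs : S := eqv none
  let c : S → ℤ := fun y => Q.adjugate y xs
  have hQc : ∀ x, ∑ y, Q x y * c y = if x = xs then Q.det else 0 := by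
    intro x
    have h1 : (Q * Q.adjugate) x xs = (Q.det • (1 : Matrix S S ℤ)) x xs := by
      rw [Matrix.mul_adjugate]
    rw [Matrix.mul_apply] at h1
    rw [h1, Matrix.smul_apply, Matrix.one_apply]
    split_ifs <;> simp
  have hcx0 : c ⟨x0, hx0⟩ = Q.det := by
    have h1 := hQc xs
    rw [if_pos rfl] at h1
    rw [← h1]
    rw [Finset.sum_eq_single ⟨x0, hx0⟩]
    · simp [Q, xs, rowZ]
    · intro b _ hb
      simp [Q, xs, rowZ, hb]
    · simp
  have hc0 : c ≠ 0 := by
    intro h
    apply hQdet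
    rw [← hcx0, h]
    rfl
  have hcb : ∀ x : S, (c x) ^ 2 ≤ (n + 2 : ℤ) ^ (n + 2) := by
    intro x
    have h1 : c x = (Q.updateRow xs (Pi.single x 1)).det := Matrix.adjugate_apply _ _ _
    have h2 := hadamard ((Q.updateRow xs (Pi.single x 1)).map (Int.cast : ℤ → ℝ)) (by
      intro i j
      rw [Matrix.map_apply, Matrix.updateRow_apply]
      rw [← Int.cast_abs]
      have : |(if i = xs then (Pi.single x 1 : S → ℤ) j else Q i j)| ≤ 1 := by
        split_ifs
        · rw [Pi.single_apply]
          split_ifs <;> simp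
        · exact hrowZ1 _ _
      exact_mod_cast this)
    have h3 := Int.cast_det (R := ℝ) (Q.updateRow xs (Pi.single x 1))
    rw [← h3, ← h1] at h2
    have h4 : (Fintype.card S : ℝ) ^ (Fintype.card S) ≤ ((n : ℝ) + 2) ^ (n + 2) := by
      have e1 : (Fintype.card S : ℝ) ≤ (n : ℝ) + 2 := by exact_mod_cast hS
      calc (Fintype.card S : ℝ) ^ (Fintype.card S) ≤ ((n : ℝ) + 2) ^ (Fintype.card S) :=
            pow_le_pow_left₀ (Nat.cast_nonneg _) e1 _
        _ ≤ ((n : ℝ) + 2) ^ (n + 2) := pow_le_pow_right₀ (by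
            have : (0 : ℝ) ≤ n := Nat.cast_nonneg n
            linarith) hS
    have h5 : ((c x : ℤ) : ℝ) ^ 2 ≤ ((n : ℝ) + 2) ^ (n + 2) := h2.trans h4
    exact_mod_cast h5
  have hrelc : ∀ o, ∑ x : S, (c x : ℝ) * (UU f x.1 o : ℝ) = 0 := by
    intro o
    apply orth_span (fun x => (c x : ℝ))
    · intro k
      have h1 := hQc (eqv (some k))
      rw [if_neg (by
        intro h
        have := eqv.injective h
        simp at this)] at h1
      have h2 : ∑ x : S, (c x) * UU f x.1 (a k) = 0 := by
        rw [← h1]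
        apply Finset.sum_congr rfl
        intro x _
        simp only [Q, Matrix.of_apply, Equiv.symm_apply_apply, rowZ, Option.casesOn']
        ring
      have h3 : ((∑ x : S, (c x) * UU f x.1 (a k) : ℤ) : ℝ) = 0 := by rw [h2]; simp
      push_cast at h3
      exact h3
    · rw [hspan]
      exact Submodule.subset_span ⟨o, rfl⟩
  -- proportional to the minimal relation
  have hprop : ∃ ρ : ℝ, ∀ x : S, (c x : ℝ) = ρ * μ x.1 := by
    refine ⟨c ⟨x0, hx0⟩ / μ x0, ?_⟩
    have h1 := rigid (fun x => ext0 μ (fun x => (c x : ℝ)) x - (c ⟨x0, hx0⟩ / μ x0) * μ x) ?_ ?_ x0 hx0 ?_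
    · intro x
      have := congrFun h1 x.1
      simp only [Pi.zero_apply] at this
      rw [ext_apply (fun x => (c x : ℝ)) x] at this
      linarith
    · intro o
      have e1 := ext_rel _ hrelc o
      have e2 := hR o
      have : ∑ x, (ext0 μ (fun x => (c x : ℝ)) x - (c ⟨x0, hx0⟩ / μ x0) * μ x) * (UU f x o : ℝ)
          = ∑ x, ext0 μ (fun x => (c x : ℝ)) x * (UU f x o : ℝ)
            - (c ⟨x0, hx0⟩ / μ x0) * ∑ x, μ x * (UU f x o : ℝ) := by
        rw [Finset.mul_sum, ← Finset.sum_sub_distrib]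
        exact Finset.sum_congr rfl (fun x _ => by ring)
      rw [this, e1, e2]
      simp
    · intro x hx
      rw [ext_supp _ x hx, hx]
      simp
    · rw [ext_apply (fun x => (c x : ℝ)) ⟨x0, hx0⟩]
      field_simp
      simp
  obtain ⟨ρ, hρ⟩ := hprop
  have habs : ∃ s : ℤ, ∀ x : S, ((c x).natAbs : ℤ) = s * c x := by
    rcases le_or_gt 0 ρ with h | h
    · refine ⟨1, fun x => ?_⟩
      have h1 : (0 : ℝ) ≤ c x := by
        rw [hρ]
        exact mul_nonneg h (h0 _)
      have h2 : 0 ≤ c x := by exact_mod_cast h1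
      omega
    · refine ⟨-1, fun x => ?_⟩
      have h1 : (c x : ℝ) ≤ 0 := by
        rw [hρ]
        exact mul_nonpos_of_nonpos_of_nonneg h.le (h0 _)
      have h2 : c x ≤ 0 := by exact_mod_cast h1
      omega
  obtain ⟨s, hsabs⟩ := habs
  refine ⟨fun x => if h : μ x ≠ 0 then (c ⟨x, h⟩).natAbs else 0, ?_, ?_, ?_⟩
  · intro h
    apply hc0
    funext x
    have := congrFun h x.1
    simp only [x.2, ne_eq, not_false_eq_true, dite_true, Pi.zero_apply] at this
    simpa using this
  · intro o
    have h1 : ∑ x : S, ((c x).natAbs : ℤ) * UU f x.1 o = 0 := by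
      simp only [hsabs, mul_assoc, ← Finset.mul_sum]
      have h2 : ((∑ x : S, (c x) * UU f x.1 o : ℤ) : ℝ) = 0 := by
        push_cast
        exact hrelc o
      have h3 : ∑ x : S, (c x) * UU f x.1 o = 0 := by exact_mod_cast h2
      rw [h3, mul_zero]
    have h2 := ext0_sum μ (fun x => ((c x).natAbs : ℝ)) (fun x => (UU f x o : ℝ))
    have h3 : ((∑ x : S, ((c x).natAbs : ℤ) * UU f x.1 o : ℤ) : ℝ) = 0 := by rw [h1]; simp
    have h4 : ∑ x : S, ((c x).natAbs : ℝ) * (UU f x.1 o : ℝ) = 0 := by
      refine Eq.trans ?_ h3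
      push_cast
      apply Finset.sum_congr rfl
      intro x _
      congr 1
      rw [Nat.cast_natAbs, Int.cast_abs]
    rw [h4] at h2
    have h5 : ((∑ x, ((if h : μ x ≠ 0 then (c ⟨x, h⟩).natAbs else 0 : ℕ) : ℤ) * UU f x o : ℤ) : ℝ) = 0 := by
      refine Eq.trans ?_ h2
      push_cast
      apply Finset.sum_congr rfl
      intro x _
      congr 1
      unfold ext0
      split_ifs <;> simp
    exact_mod_cast h5
  · have h1 := ext0_sum μ (fun x => ((c x).natAbs : ℝ)) (fun _ => 1)
    simp only [mul_one] at h1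
    have h2 : ((∑ x, (if h : μ x ≠ 0 then (c ⟨x, h⟩).natAbs else 0 : ℕ) : ℕ) : ℝ)
        = ∑ x : S, ((c x).natAbs : ℝ) := by
      refine Eq.trans ?_ h1
      push_cast
      apply Finset.sum_congr rfl
      intro x _
      unfold ext0
      split_ifs <;> simp
    have h3 : (∑ x, (if h : μ x ≠ 0 then (c ⟨x, h⟩).natAbs else 0 : ℕ)) = ∑ x : S, (c x).natAbs := by
      exact_mod_cast h2
    rw [h3]
    have h4 : ∀ x : S, (c x).natAbs ^ 2 ≤ (n + 2) ^ (n + 2) := by
      intro x
      have := hcb x
      have h5 : (((c x).natAbs : ℕ) : ℤ) ^ 2 = (c x) ^ 2 := by rw [Int.natAbs_sq]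
      rw [← h5] at this
      exact_mod_cast this
    calc (∑ x : S, (c x).natAbs) ^ 2 ≤ Fintype.card S * ∑ x : S, (c x).natAbs ^ 2 := by
          have := sq_sum_le_card_mul_sum_sq (s := (Finset.univ : Finset S)) (f := fun x => (c x).natAbs)
          simpa using this
      _ ≤ Fintype.card S * ∑ x : S, (n + 2) ^ (n + 2) :=
          Nat.mul_le_mul_left _ (Finset.sum_le_sum (fun x _ => h4 x))
      _ = Fintype.card S * (Fintype.card S * (n + 2) ^ (n + 2)) := by
        rw [Finset.sum_const, Finset.card_univ, smul_eq_mul]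
      _ ≤ (n + 2) * ((n + 2) * (n + 2) ^ (n + 2)) :=
        Nat.mul_le_mul hS (Nat.mul_le_mul_right _ hS)
      _ = (n + 2) ^ (n + 4) := by ring

lemma upper (f : (Fin n → Bool) → Bool) (hf : ¬ IsThreshold f) :
    ∃ k, 1 ≤ k ∧ k ^ 2 ≤ (n + 2) ^ (n + 4) ∧ KSummable k f := by
  classical
  obtain ⟨t, ht0, ht1, ht2⟩ := exists_int_rel f hf
  have hsplit : ∀ F : (Fin n → Bool) → ℕ, ∑ x, (t x : ℤ) * (ep f x * F x)
      = ((∑ x, (if f x then t x else 0) * F x : ℕ) : ℤ)
        - ((∑ x, (if f x then 0 else t x) * F x : ℕ) : ℤ) := by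
    intro F
    push_cast
    rw [← Finset.sum_sub_distrib]
    apply Finset.sum_congr rfl
    intro x _
    unfold ep
    split_ifs <;> simp
  have hnone : ∑ x, (if f x then t x else 0) = ∑ x, (if f x then 0 else t x) := by
    have h1 := ht1 none
    simp only [UU] at h1
    have h2 := hsplit (fun _ => 1)
    simp only [Nat.cast_one, mul_one] at h2
    rw [h1] at h2
    have h3 := sub_eq_zero.1 h2.symm
    exact_mod_cast h3
  have hsome : ∀ i, ∑ x, (if f x then t x else 0) * (x i).toNat
      = ∑ x, (if f x then 0 else t x) * (x i).toNat := by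
    intro i
    have h1 := ht1 (some i)
    simp only [UU] at h1
    have h2 := hsplit (fun x => (x i).toNat)
    rw [h1] at h2
    have h3 := sub_eq_zero.1 h2.symm
    exact_mod_cast h3
  have htot : ∑ x, t x = ∑ x, (if f x then t x else 0) + ∑ x, (if f x then 0 else t x) := by
    rw [← Finset.sum_add_distrib]
    apply Finset.sum_congr rfl
    intro x _
    split_ifs <;> simp
  refine ⟨∑ x, (if f x then t x else 0), ?_, ?_, ?_⟩
  · by_contra hc
    have h1 : ∑ x, t x = 0 := by omega
    apply ht0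
    funext x
    exact (Finset.sum_eq_zero_iff.1 h1) x (Finset.mem_univ _)
  · exact (Nat.pow_le_pow_left (by omega) 2).trans ht2
  · apply ksummable_of_counts (fun x => if f x then t x else 0) (fun x => if f x then 0 else t x)
      id id ?_ ?_ hnone hsome
    · intro x hx
      by_contra h
      simp only [id] at h
      simp [h] at hx
    · intro x hx
      by_contra h
      have h' : f x = true := by simpa using h
      simp [h'] at hx

end Upper

section Params

lemma cube_le (s : ℕ) (hs : 10 ≤ s) : s ^ 3 ≤ 2 ^ s := by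
  induction s, hs using Nat.le_induction with
  | base => norm_num
  | succ s hs ih =>
    rw [pow_succ 2]
    nlinarith [sq_nonneg (s : ℤ)]

lemma estimate (n K m r P β b1 E X : ℝ)
    (R1 : n < (β + 1) * (P + 12)) (R2 : β = b1 + (4 * r + 4))
    (R3 : P * m ≤ 2 * E + P * 4 + 8 * m) (R4 : K = m + 2 * r) (R5 : β + 1 ≤ 2 * X ^ 2)
    (R6 : X ≤ K) (R7 : K ≤ 2 * X) (R8 : 4 * r + 5 ≤ X) (R9 : P * X ^ 2 ≤ n) (R10 : K ^ 3 ≤ n)
    (Rm : 4 ≤ m) (RP : 0 ≤ P) (Rb : 0 ≤ b1) (Rr : 0 ≤ r) (Rx : 1 ≤ X) (hn1 : 0 ≤ n) :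
    n * K ≤ 2 * (E * b1) + (2 * r + 52) * n := by
  have S1 : b1 * P ≥ n - (4 * r + 5) * P - 12 * (β + 1) := by
    rw [R2] at R1 ⊢
    linarith
  have S2 : 2 * (E * b1) ≥ b1 * P * (m - 4) - 8 * m * b1 := by
    have := mul_le_mul_of_nonneg_left R3 Rb
    linarith
  have hX0 : 0 ≤ X := by linarith
  have hm0 : 0 ≤ m := by linarith
  have hK0 : 0 ≤ K := by linarith
  have hmK : m ≤ K := by linarith
  have hX2 : X ^ 2 ≤ K ^ 2 := pow_le_pow_left₀ hX0 R6 2
  have hK3 : X ^ 2 * m ≤ n := by
    calc X ^ 2 * m ≤ K ^ 2 * K := mul_le_mul hX2 hmK hm0 (by positivity)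
      _ = K ^ 3 := by ring
      _ ≤ n := R10
  have S3 : (4 * r + 5) * P * m ≤ 2 * n := by
    have h1 : m ≤ 2 * X := by linarith
    calc (4 * r + 5) * P * m ≤ X * P * (2 * X) := by
          apply mul_le_mul _ h1 (by linarith) (by positivity)
          exact mul_le_mul_of_nonneg_right R8 RP
      _ = 2 * (P * X ^ 2) := by ring
      _ ≤ 2 * n := by linarith
  have S4 : 12 * (β + 1) * m ≤ 24 * n := by
    calc 12 * (β + 1) * m ≤ 12 * (2 * X ^ 2) * m := by
          apply mul_le_mul_of_nonneg_right _ hm0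
          linarith
      _ = 24 * (X ^ 2 * m) := by ring
      _ ≤ 24 * n := by linarith
  have S5 : 8 * m * b1 ≤ 16 * n := by
    have h1 : b1 ≤ 2 * X ^ 2 := by linarith
    calc 8 * m * b1 ≤ 8 * m * (2 * X ^ 2) := mul_le_mul_of_nonneg_left h1 (by positivity)
      _ = 16 * (X ^ 2 * m) := by ring
      _ ≤ 16 * n := by linarith
  have hβ0 : 0 ≤ β := by rw [R2]; positivity
  have S6 : b1 * P * (m - 4) ≥ n * m - 4 * n - (4 * r + 5) * P * m - 12 * (β + 1) * m := by
    have h1 : b1 * P * (m - 4) ≥ (n - (4 * r + 5) * P - 12 * (β + 1)) * (m - 4) :=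
      mul_le_mul_of_nonneg_right S1 (by linarith)
    have h2 : 0 ≤ (4 * r + 5) * P := by positivity
    have h3 : 0 ≤ 12 * (β + 1) := by positivity
    have h4 : (n - (4 * r + 5) * P - 12 * (β + 1)) * (m - 4)
        = n * m - 4 * n - (4 * r + 5) * P * m - 12 * (β + 1) * m
          + 4 * ((4 * r + 5) * P) + 4 * (12 * (β + 1)) := by ring
    linarith
  rw [R4]
  have h5 : n * (m + 2 * r) = n * m + 2 * r * n := by ring
  rw [h5]
  have h6 : (2 * r + 52) * n = 2 * r * n + 52 * n := by ring
  rw [h6]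
  linarith

/-- parameters -/
lemma params (n : ℕ) (hn : 2 ^ 64 ≤ n) : ∃ m b τ r : ℕ, 6 ≤ m ∧ 3 ≤ b ∧ b ≤ 2 ^ τ ∧
    2 ^ m * (b + 2 * τ + 1) + 12 * b ≤ n ∧ 2 ^ r ≤ Nat.log 2 n ∧
    ∀ E : ℕ, 2 ^ m * m ≤ 2 * E + 2 ^ m * 4 + 8 * m →
      (n : ℝ) * Nat.log 2 n ≤ 2 * ((E * (b - 1) : ℕ) : ℝ) + (2 * r + 52) * n := by
  set K := Nat.log 2 n with hK
  have hn0 : n ≠ 0 := by
    have : 0 < 2 ^ 64 := by norm_num
    omega
  have hK1 : 2 ^ K ≤ n := Nat.pow_log_le_self 2 hn0
  have hK2 : n < 2 ^ (K + 1) := Nat.lt_pow_succ_log_self (by norm_num) n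
  have hK64 : 64 ≤ K := by
    rw [hK]
    exact (Nat.le_log_iff_pow_le (by norm_num) hn0).2 hn
  set r := Nat.log 2 K with hr
  have hr1 : 2 ^ r ≤ K := Nat.pow_log_le_self 2 (by omega)
  have hr2 : K < 2 ^ (r + 1) := Nat.lt_pow_succ_log_self (by norm_num) K
  have hr6 : 6 ≤ r := by
    rw [hr]
    exact (Nat.le_log_iff_pow_le (by norm_num) (by omega)).2 (by norm_num; omega)
  have hpow : ∀ s : ℕ, 6 ≤ s → 4 * s + 5 ≤ 2 ^ s := by
    intro s hs
    induction s, hs using Nat.le_induction with
    | base => norm_num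
    | succ s hs ih => rw [pow_succ]; omega
  have hr3 := hpow r hr6
  obtain ⟨m, hm⟩ : ∃ m, K = m + 2 * r := ⟨K - 2 * r, by omega⟩
  have hm6 : 6 ≤ m := by omega
  set P := 2 ^ m with hP
  have hPK : 2 ^ K = P * 2 ^ (2 * r) := by rw [hm, pow_add]
  have hP64 : 64 ≤ P := by
    calc 64 = 2 ^ 6 := by norm_num
      _ ≤ 2 ^ m := Nat.pow_le_pow_right (by norm_num) hm6
  set β := n / (P + 12) with hβ
  have hβ1 : β * (P + 12) ≤ n := Nat.div_mul_le_self n (P + 12)
  have hβ2 : n < (β + 1) * (P + 12) := by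
    have h1 := Nat.div_add_mod n (P + 12)
    have h2 := Nat.mod_lt n (show P + 12 > 0 by omega)
    rw [← hβ] at h1
    calc n = (P + 12) * β + n % (P + 12) := h1.symm
      _ < (P + 12) * β + (P + 12) := by omega
      _ = (β + 1) * (P + 12) := by ring
  have hβ3 : β < 2 ^ (2 * r + 1) := by
    have h1 : β * P < 2 ^ (2 * r + 1) * P := by
      calc β * P ≤ β * (P + 12) := Nat.mul_le_mul_left _ (by omega)
        _ ≤ n := hβ1
        _ < 2 ^ (K + 1) := hK2
        _ = 2 ^ (2 * r + 1) * P := by rw [pow_succ, hPK, pow_succ]; ring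
    exact lt_of_mul_lt_mul_right h1 (Nat.zero_le _)
  have h4r : 2 ^ (2 * r) = 2 * 2 ^ (2 * r - 1) := by
    rw [← pow_succ']
    congr 1
    omega
  have hβ4 : 2 ^ (2 * r - 1) ≤ β := by
    rw [hβ, Nat.le_div_iff_mul_le (by omega)]
    calc 2 ^ (2 * r - 1) * (P + 12) ≤ 2 ^ (2 * r - 1) * (2 * P) := Nat.mul_le_mul_left _ (by omega)
      _ = 2 ^ K := by rw [hPK, h4r]; ring
      _ ≤ n := hK1
  have hβ5 : 4 * r + 6 ≤ β := by
    have : 2 ^ (r + 1) ≤ 2 ^ (2 * r - 1) := Nat.pow_le_pow_right (by norm_num) (by omega)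
    rw [pow_succ] at this
    omega
  refine ⟨m, β - (4 * r + 3), 2 * r + 1, r, hm6, by omega, by omega, ?_, hr1, ?_⟩
  · have h1 : β - (4 * r + 3) + 2 * (2 * r + 1) + 1 = β := by omega
    rw [h1]
    calc P * β + 12 * (β - (4 * r + 3)) ≤ P * β + 12 * β := by omega
      _ = β * (P + 12) := by ring
      _ ≤ n := hβ1
  · intro E hE
    obtain ⟨b1, hb1⟩ : ∃ b1, β - (4 * r + 3) - 1 = b1 := ⟨_, rfl⟩
    rw [hb1]
    have hb2 : β = b1 + (4 * r + 4) := by omega
    -- real versions
    have R1 : (n : ℝ) < ((β : ℝ) + 1) * ((P : ℝ) + 12) := by exact_mod_cast hβ2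
    have R2 : (β : ℝ) = b1 + (4 * r + 4) := by exact_mod_cast hb2
    have R3 : (P : ℝ) * m ≤ 2 * E + P * 4 + 8 * m := by exact_mod_cast hE
    have R4 : (K : ℝ) = m + 2 * r := by exact_mod_cast hm
    have R5 : (β : ℝ) + 1 ≤ 2 * (2 ^ r) ^ 2 := by
      have : β + 1 ≤ 2 * (2 ^ r) ^ 2 := by
        have e : 2 ^ (2 * r + 1) = 2 * (2 ^ r) ^ 2 := by rw [pow_succ, ← pow_mul]; ring_nf
        rw [e] at hβ3
        exact hβ3
      exact_mod_cast this
    have R6 : (2 : ℝ) ^ r ≤ K := by exact_mod_cast hr1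
    have R7 : (K : ℝ) ≤ 2 * 2 ^ r := by
      have : K ≤ 2 * 2 ^ r := by
        rw [pow_succ] at hr2
        omega
      exact_mod_cast this
    have R8 : (4 : ℝ) * r + 5 ≤ 2 ^ r := by exact_mod_cast hr3
    have R9 : (P : ℝ) * (2 ^ r) ^ 2 ≤ n := by
      have : P * (2 ^ r) ^ 2 ≤ n := by
        have e : 2 ^ (2 * r) = (2 ^ r) ^ 2 := by rw [← pow_mul]; ring_nf
        rw [← e, ← hPK]
        exact hK1
      exact_mod_cast this
    have R10 : (K : ℝ) ^ 3 ≤ n := by
      have h2 : K ^ 3 ≤ n := (cube_le K (by omega)).trans hK1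
      exact_mod_cast h2
    have Rm : (4 : ℝ) ≤ m := by
      have : 4 ≤ m := by omega
      exact_mod_cast this
    have RP : (0 : ℝ) ≤ P := Nat.cast_nonneg _
    have Rb : (0 : ℝ) ≤ b1 := Nat.cast_nonneg _
    have Rr : (0 : ℝ) ≤ r := Nat.cast_nonneg _
    have Rx : (1 : ℝ) ≤ 2 ^ r := one_le_pow₀ (by norm_num)
    push_cast
    exact estimate n K m r P β b1 E (2 ^ r) R1 R2 R3 R4 R5 R6 R7 R8 R9 R10 Rm RP Rb Rr Rx
      (Nat.cast_nonneg n)

end Params

section Final

lemma certifies_upper (n : ℕ) : Certifies n (Nat.sqrt ((n + 2) ^ (n + 4))) := by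
  intro f _ ha
  by_contra hf
  obtain ⟨k, hk1, hk2, hk3⟩ := upper f hf
  exact ha k hk1 (Nat.le_sqrt'.2 hk2) hk3

lemma M_certifies (n : ℕ) : Certifies n (M n) :=
  Nat.sInf_mem (s := {m | Certifies n m}) ⟨_, certifies_upper n⟩

lemma M_sq_le (n : ℕ) : M n ^ 2 ≤ (n + 2) ^ (n + 4) := by
  have h : M n ≤ Nat.sqrt ((n + 2) ^ (n + 4)) := Nat.sInf_le (certifies_upper n)
  exact Nat.le_sqrt'.1 h

lemma lower_final {m b τ n : ℕ} (hm : 6 ≤ m) (hb : 3 ≤ b) (hτ : b ≤ 2 ^ τ)
    (hn : 2 ^ m * (b + 2 * τ + 1) + 12 * b ≤ n) :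
    ∃ E : ℕ, 2 ^ m * m ≤ 2 * E + 2 ^ m * 4 + 8 * m ∧
      ∀ t, Certifies n t → 2 ^ (E * (b - 1)) ≤ 2 * t := by
  classical
  obtain ⟨R, instR, E, A, F, G, hcard, hE, hone, hver, hker⟩ := pack m hm
  have hm2 : 64 ≤ 2 ^ m := by
    calc 64 = 2 ^ 6 := by norm_num
      _ ≤ 2 ^ m := Nat.pow_le_pow_right (by norm_num) hm
  have hc2 : Fintype.card (Finset (Fin m)) = 2 ^ m := by simp
  obtain ⟨c0, hc0, hker0, -⟩ := Int.Matrix.exists_ne_zero_int_vec_norm_le
    (Matrix.of (fun (r : R) (j : Finset (Fin m)) => ((A r j).toNat : ℤ))) (by omega) (by omega)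
  have hker0' : ∀ r, ∑ j, c0 j * ((A r j).toNat : ℤ) = 0 := by
    intro r
    have h1 : ∑ j, ((A r j).toNat : ℤ) * c0 j = 0 := congrFun hker0 r
    rw [← h1]
    exact Finset.sum_congr rfl (fun j _ => mul_comm _ _)
  obtain ⟨f, hf, ⟨k0, hk0, hks⟩, hlow⟩ := blocks (bb := b) (τ := τ) A F G hone E hver hker c0 hc0
    hker0' hb hτ
  have hV : Fintype.card (VB R (Finset (Fin m)) b τ) ≤ n := by
    unfold VB
    simp only [Fintype.card_sum, Fintype.card_prod, Fintype.card_bool, Fintype.card_fin,
      Fintype.card_option]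
    rw [hc2]
    obtain ⟨x, hx⟩ : ∃ x, Fintype.card R = x := ⟨_, rfl⟩
    rw [hx] at hcard ⊢
    rw [← hcard] at hn ⊢
    have e1 : (x + 1) * (b + 2 * τ + 1) + 12 * b
        = x * b + x * (τ * 2) + (x + 1) + (b + 2 * τ + 12 * b) := by ring
    rw [e1] at hn
    have e2 : (b - 2) * (2 * 2 * (2 + 1)) = 12 * b - 24 := by omega
    rw [e2]
    omega
  obtain ⟨H, hH, hHk⟩ := pad f hf hV
  refine ⟨E, hE, fun t ht => ?_⟩
  by_contra hcon
  have hthr : IsThreshold H := by
    apply ht H hH
    intro k hk1 hk2 hs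
    have := hlow k hk1 ((hHk k).1 hs)
    omega
  exact not_ksummable_of_threshold hthr hk0 ((hHk k0).2 hks)

lemma M_pos {n : ℕ} (hn : 2 ^ 64 ≤ n) : 1 ≤ M n := by
  obtain ⟨m, b, τ, r, h1, h2, h3, h4, -, -⟩ := params n hn
  obtain ⟨E, -, hE⟩ := lower_final h1 h2 h3 h4
  have := hE _ (M_certifies n)
  have h5 : 0 < 2 ^ (E * (b - 1)) := by positivity
  omega

lemma log_upper {n : ℕ} (hn : 2 ^ 64 ≤ n) :
    Real.log (M n) ≤ ((n : ℝ) + 4) / 2 * Real.log ((n : ℝ) + 2) := by
  have h1 : ((M n : ℝ)) ^ 2 ≤ ((n : ℝ) + 2) ^ (n + 4) := by exact_mod_cast M_sq_le n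
  have h2 : (1 : ℝ) ≤ M n := by exact_mod_cast M_pos hn
  have h3 : Real.log ((M n : ℝ) ^ 2) ≤ Real.log (((n : ℝ) + 2) ^ (n + 4)) :=
    Real.log_le_log (by positivity) h1
  rw [Real.log_pow, Real.log_pow] at h3
  push_cast at h3
  linarith

lemma log_lower {n : ℕ} (hn : 2 ^ 64 ≤ n) :
    (n : ℝ) / 2 * Real.log n - n * Real.log (Real.log n) - 20 * n ≤ Real.log (M n) := by
  obtain ⟨m, b, τ, r, h1, h2, h3, h4, h5, h6⟩ := params n hn
  obtain ⟨E, hE1, hE2⟩ := lower_final h1 h2 h3 h4
  have h7 := h6 E hE1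
  have h8 := hE2 _ (M_certifies n)
  set Y := E * (b - 1) with hY
  set K := Nat.log 2 n with hK
  have hn0 : n ≠ 0 := by
    have : 0 < 2 ^ 64 := by norm_num
    omega
  have hK1 : 2 ^ K ≤ n := Nat.pow_log_le_self 2 hn0
  have hK2 : n < 2 ^ (K + 1) := Nat.lt_pow_succ_log_self (by norm_num) n
  have hK64 : 64 ≤ K := by
    rw [hK]
    exact (Nat.le_log_iff_pow_le (by norm_num) hn0).2 hn
  have hnpos : (0 : ℝ) < n := by
    have : 0 < n := by omega
    exact_mod_cast this
  have hn1 : (1 : ℝ) ≤ n := by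
    have : 1 ≤ n := by omega
    exact_mod_cast this
  have l2a : (0.6931471803 : ℝ) < Real.log 2 := Real.log_two_gt_d9
  have l2b : Real.log 2 < 0.6931471808 := Real.log_two_lt_d9
  have g1 : (Y : ℝ) * Real.log 2 ≤ Real.log 2 + Real.log (M n) := by
    have h9 : (2 : ℝ) ^ Y ≤ 2 * M n := by exact_mod_cast h8
    have h10 := Real.log_le_log (by positivity) h9
    have hMpos : (M n : ℝ) ≠ 0 := by
      have := M_pos hn
      have : M n ≠ 0 := by omega
      exact_mod_cast this
    rw [Real.log_pow, Real.log_mul (by norm_num) hMpos] at h10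
    exact h10
  have g2 : Real.log n ≤ (K + 1) * Real.log 2 := by
    have h9 : (n : ℝ) ≤ 2 ^ (K + 1) := by
      have : n ≤ 2 ^ (K + 1) := hK2.le
      exact_mod_cast this
    have h10 := Real.log_le_log hnpos h9
    rw [Real.log_pow] at h10
    exact_mod_cast h10
  have g3 : (K : ℝ) * Real.log 2 ≤ Real.log n := by
    have h9 : (2 : ℝ) ^ K ≤ n := by exact_mod_cast hK1
    have h10 := Real.log_le_log (by positivity) h9
    rwa [Real.log_pow] at h10
  have hKpos : (0 : ℝ) < K := by
    have : 0 < K := by omega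
    exact_mod_cast this
  have g4 : (r : ℝ) * Real.log 2 ≤ Real.log K := by
    have h9 : (2 : ℝ) ^ r ≤ K := by exact_mod_cast h5
    have h10 := Real.log_le_log (by positivity) h9
    rwa [Real.log_pow] at h10
  have g5 : Real.log K ≤ Real.log 2 + Real.log (Real.log n) := by
    have h9 : (K : ℝ) ≤ 2 * Real.log n := by nlinarith
    have h11 : 0 < Real.log n := by nlinarith
    have h10 := Real.log_le_log hKpos h9
    rwa [Real.log_mul (by norm_num) h11.ne'] at h10
  have g6 : (n : ℝ) * K * Real.log 2 ≤ (2 * Y + (2 * r + 52) * n) * Real.log 2 :=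
    mul_le_mul_of_nonneg_right h7 (by linarith)
  have g7 : (n : ℝ) * Real.log n ≤ n * ((K + 1) * Real.log 2) :=
    mul_le_mul_of_nonneg_left g2 hnpos.le
  have g8 : (n : ℝ) * ((r : ℝ) * Real.log 2) ≤ n * (Real.log 2 + Real.log (Real.log n)) :=
    mul_le_mul_of_nonneg_left (g4.trans g5) hnpos.le
  have g9 : (n : ℝ) * Real.log 2 ≤ n * 0.6931471808 := mul_le_mul_of_nonneg_left l2b.le hnpos.le
  nlinarith

open Filter Topology in
theorem main_limit : Tendsto (fun n : ℕ => Real.log (M n) / ((n : ℝ) * Real.log n)) atTop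
    (𝓝 (1 / 2)) := by
  have hlog : Tendsto (fun n : ℕ => Real.log (n : ℝ)) atTop atTop :=
    Real.tendsto_log_atTop.comp tendsto_natCast_atTop_atTop
  have h1 : Tendsto (fun n : ℕ => Real.log (Real.log (n : ℝ)) / Real.log n) atTop (𝓝 0) := by
    have := Real.isLittleO_log_id_atTop.tendsto_div_nhds_zero
    exact this.comp hlog
  have h2 : Tendsto (fun n : ℕ => 20 / Real.log (n : ℝ)) atTop (𝓝 0) :=
    tendsto_const_nhds.div_atTop hlog
  have h3 : Tendsto (fun n : ℕ => 4 / (n : ℝ)) atTop (𝓝 0) :=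
    tendsto_const_nhds.div_atTop tendsto_natCast_atTop_atTop
  have h4 : Tendsto (fun n : ℕ => 2 / (n : ℝ)) atTop (𝓝 0) :=
    tendsto_const_nhds.div_atTop tendsto_natCast_atTop_atTop
  have hg : Tendsto (fun n : ℕ => 1 / 2 - Real.log (Real.log (n : ℝ)) / Real.log n
      - 20 / Real.log (n : ℝ)) atTop (𝓝 (1 / 2)) := by
    have := (tendsto_const_nhds (x := (1 / 2 : ℝ)).sub h1).sub h2
    simpa using this
  have hh : Tendsto (fun n : ℕ => 1 / 2 * ((1 + 4 / (n : ℝ)) * (1 + 2 / (n : ℝ)))) atTop
      (𝓝 (1 / 2)) := by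
    have := ((tendsto_const_nhds (x := (1 : ℝ)).add h3).mul
      (tendsto_const_nhds (x := (1 : ℝ)).add h4)).const_mul (1 / 2 : ℝ)
    simpa using this
  refine tendsto_of_tendsto_of_tendsto_of_le_of_le' hg hh ?_ ?_
  · filter_upwards [eventually_ge_atTop (2 ^ 64)] with n hn
    have hn3 : (3 : ℝ) ≤ n := by
      have : 3 ≤ n := le_trans (by norm_num) hn
      exact_mod_cast this
    have hl : 1 ≤ Real.log n := by
      rw [Real.le_log_iff_exp_le (by linarith)]
      have := Real.exp_one_lt_d9
      linarith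
    have hpos : 0 < (n : ℝ) * Real.log n := by positivity
    rw [le_div_iff₀ hpos]
    have := log_lower hn
    have e : (1 / 2 - Real.log (Real.log (n : ℝ)) / Real.log n - 20 / Real.log (n : ℝ))
        * ((n : ℝ) * Real.log n)
        = (n : ℝ) / 2 * Real.log n - n * Real.log (Real.log n) - 20 * n := by
      have : Real.log (n : ℝ) ≠ 0 := by linarith
      field_simp
    rw [e]
    exact this
  · filter_upwards [eventually_ge_atTop (2 ^ 64)] with n hn
    have hn3 : (3 : ℝ) ≤ n := by
      have : 3 ≤ n := le_trans (by norm_num) hn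
      exact_mod_cast this
    have hl : 1 ≤ Real.log n := by
      rw [Real.le_log_iff_exp_le (by linarith)]
      have := Real.exp_one_lt_d9
      linarith
    have hpos : 0 < (n : ℝ) * Real.log n := by positivity
    rw [div_le_iff₀ hpos]
    have h5 := log_upper hn
    have h6 : Real.log ((n : ℝ) + 2) ≤ Real.log n + 2 / n := by
      have e : (n : ℝ) + 2 = n * (1 + 2 / n) := by field_simp
      rw [e, Real.log_mul (by linarith) (by positivity)]
      have := Real.log_le_sub_one_of_pos (show (0 : ℝ) < 1 + 2 / n by positivity)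
      linarith
    have h7 : Real.log n + 2 / n ≤ (1 + 2 / (n : ℝ)) * Real.log n := by
      have : 2 / (n : ℝ) ≤ 2 / (n : ℝ) * Real.log n := by
        have : 0 ≤ 2 / (n : ℝ) := by positivity
        nlinarith
      linarith
    calc Real.log (M n) ≤ ((n : ℝ) + 4) / 2 * Real.log ((n : ℝ) + 2) := h5
      _ ≤ ((n : ℝ) + 4) / 2 * ((1 + 2 / (n : ℝ)) * Real.log n) :=
          mul_le_mul_of_nonneg_left (h6.trans h7) (by positivity)
      _ = 1 / 2 * ((1 + 4 / (n : ℝ)) * (1 + 2 / (n : ℝ))) * ((n : ℝ) * Real.log n) := by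
          field_simp

end Final

/-- `M n` is well defined with `M n ^ 2 ≤ (n + 2) ^ (n + 4)`, it satisfies
`(n / 2) log n - n log log n - 20 n ≤ log (M n) ≤ ((n + 4) / 2) log (n + 2)` for `n ≥ 2 ^ 64`, and
therefore `log (M n)` is asymptotic to `(n / 2) log n`. -/
theorem result :
    (∀ n : ℕ, Certifies n (Nat.sqrt ((n + 2) ^ (n + 4)))) ∧
    (∀ n : ℕ, 2 ^ 64 ≤ n →
      (n : ℝ) / 2 * Real.log n - n * Real.log (Real.log n) - 20 * n ≤ Real.log (M n) ∧
      Real.log (M n) ≤ ((n : ℝ) + 4) / 2 * Real.log ((n : ℝ) + 2)) ∧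
    Filter.Tendsto (fun n : ℕ => Real.log (M n) / ((n : ℝ) * Real.log n)) Filter.atTop
      (nhds (1 / 2)) :=
  ⟨certifies_upper, fun _ hn => ⟨log_lower hn, log_upper hn⟩, main_limit⟩


end Pool.Agent.Results.MP_96963f_co.SharpExponent
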